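import Pool.Agent.H93.GT.Rad

/-!
# Sections of flat bundles: the boundary terms cancel
-/

set_option autoImplicit false

namespace Pool.Agent.H93.GTD

open MeasureTheory Pool.Agent.H44.DU

variable {n : ℕ}

/-- The boundary functional of a function on the unit interval. -/
noncomputable def Jf (g : ℝ → ℂ) : ℝ :=
  1 / 2 * ∫ u in (0 : ℝ)..1, ((starRingEnd ℂ) (g u) * deriv g u).im

/-- The restriction of a family of functions to a side. -/
noncomputable def sideF (S : Surf n) (G : Fin n → ℂ → ℂ) (s : Side n) (u : ℝ) : ℂ :=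
  G s.1 (S.P s + u * (S.Q s - S.P s))

lemma sideF_mem (S : Surf n) (s : Side n) {u : ℝ} (hu : u ∈ Set.Icc (0 : ℝ) 1) :
    S.P s + u * (S.Q s - S.P s) ∈ segment ℝ (S.P s) (S.Q s) := by
  rw [segment_eq_image']
  exact ⟨u, hu, by simp⟩

/-- The restrictions of a section to two glued sides. -/
lemma sideF_gl {S : Surf n} {ζ : Side n → ℂ} {G : Fin n → ℂ → ℂ} (h : S.Sec ζ G) (s : Side n)
    {u : ℝ} (hu : u ∈ Set.Icc (0 : ℝ) 1) :
    sideF S G (S.gl s) u = ζ s * sideF S G s (1 - u) := by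
  have h1 : 1 - u ∈ Set.Icc (0 : ℝ) 1 := ⟨by linarith [hu.2], by linarith [hu.1]⟩
  have h2 := h.glue s _ (sideF_mem S s h1)
  unfold sideF
  rw [← h2]
  congr 1
  have h3 : (S.a s : ℂ) * S.P s + S.b s = S.Q (S.gl s) := S.glue_fst s
  have h4 : (S.a s : ℂ) * S.Q s + S.b s = S.P (S.gl s) := S.glue_snd s
  rw [← h3, ← h4]
  push_cast
  ring

/-- The boundary functional is odd under a gluing. -/
lemma Jf_gl {S : Surf n} {ζ : Side n → ℂ} {G : Fin n → ℂ → ℂ} (h : S.Sec ζ G)
    (hζ : ∀ s, ‖ζ s‖ = 1) (s : Side n) :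
    Jf (sideF S G (S.gl s)) = -Jf (sideF S G s) := by
  unfold Jf
  have h1 : ∫ u in (0 : ℝ)..1, ((starRingEnd ℂ) (sideF S G (S.gl s) u) *
        deriv (sideF S G (S.gl s)) u).im =
      ∫ u in (0 : ℝ)..1, -((starRingEnd ℂ) (sideF S G s (1 - u)) *
        deriv (sideF S G s) (1 - u)).im := by
    refine intervalIntegral.integral_congr_ae' ?_ ?_
    · have h2 : ∀ᵐ u : ℝ, u ≠ 1 := by
        rw [ae_iff]
        simp
      filter_upwards [h2] with u hu1 hu
      have hu' : u ∈ Set.Ioo (0 : ℝ) 1 := ⟨hu.1, lt_of_le_of_ne hu.2 hu1⟩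
      have h3 : sideF S G (S.gl s) =ᶠ[nhds u] fun w => ζ s * sideF S G s (1 - w) := by
        filter_upwards [Ioo_mem_nhds hu'.1 hu'.2] with w hw
        exact sideF_gl h s ⟨hw.1.le, hw.2.le⟩
      have h4 : deriv (sideF S G (S.gl s)) u = ζ s * -deriv (sideF S G s) (1 - u) := by
        rw [h3.deriv_eq, deriv_const_mul_field, deriv_comp_const_sub]
      rw [h4, h3.eq_of_nhds, map_mul]
      have h5 : (starRingEnd ℂ) (ζ s) * ζ s = 1 := by
        rw [mul_comm, Complex.mul_conj, Complex.normSq_eq_norm_sq, hζ s]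
        simp
      have h6 : (starRingEnd ℂ) (ζ s) * (starRingEnd ℂ) (sideF S G s (1 - u)) *
          (ζ s * -deriv (sideF S G s) (1 - u)) =
          ((starRingEnd ℂ) (ζ s) * ζ s) * -((starRingEnd ℂ) (sideF S G s (1 - u)) *
          deriv (sideF S G s) (1 - u)) := by ring
      rw [h6, h5, one_mul, Complex.neg_im]
    · exact Filter.Eventually.of_forall fun u hu => absurd (hu.1.trans_le hu.2) (by norm_num)
  rw [h1, intervalIntegral.integral_neg,
    intervalIntegral.integral_comp_sub_left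
      (fun u => ((starRingEnd ℂ) (sideF S G s u) * deriv (sideF S G s) u).im) 1]
  simp

/-- The boundary terms cancel. -/
theorem canc {S : Surf n} {ζ : Side n → ℂ} {G : Fin n → ℂ → ℂ} (h : S.Sec ζ G)
    (hζ : ∀ s, ‖ζ s‖ = 1) : ∑ s : Side n, Jf (sideF S G s) = 0 := by
  have h1 : ∑ s : Side n, Jf (sideF S G (S.gl s)) = ∑ s : Side n, Jf (sideF S G s) :=
    Equiv.sum_comp (Function.Involutive.toPerm S.gl S.gl_gl) fun s => Jf (sideF S G s)
  have h2 : ∑ s : Side n, Jf (sideF S G (S.gl s)) = -∑ s : Side n, Jf (sideF S G s) := by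
    rw [← Finset.sum_neg_distrib]
    exact Finset.sum_congr rfl fun s _ => Jf_gl h hζ s
  linarith

/-- Green's formula on one triangle. -/
def GreenTri : Prop :=
  ∀ (n : ℕ) (S : Surf n) (i : Fin n) (K : NNReal) (G : ℂ → ℂ), LipschitzOnWith K G (S.tri i) →
    ∫ z in S.tri i, ((starRingEnd ℂ) (fderiv ℝ G z 1) * fderiv ℝ G z Complex.I).im =
      ∑ k : Fin 3, Jf (fun u => G (S.P (i, k) + u * (S.Q (i, k) - S.P (i, k))))

/-- The Jacobian of a section has integral zero. -/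
theorem jac_zero (hG : GreenTri) {S : Surf n} {ζ : Side n → ℂ} {G : Fin n → ℂ → ℂ}
    (h : S.Sec ζ G) (hζ : ∀ s, ‖ζ s‖ = 1) :
    ∑ i : Fin n, ∫ z in S.tri i,
      ((starRingEnd ℂ) (fderiv ℝ (G i) z 1) * fderiv ℝ (G i) z Complex.I).im = 0 := by
  obtain ⟨K, hK⟩ := h.lip
  rw [← canc h hζ, Fintype.sum_prod_type]
  exact Finset.sum_congr rfl fun i _ => hG n S i K (G i) (hK i)

/-- The two complex derivatives. -/
noncomputable def dz (G : ℂ → ℂ) (z : ℂ) : ℂ :=
  (fderiv ℝ G z 1 - Complex.I * fderiv ℝ G z Complex.I) / 2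

/-- The two complex derivatives. -/
noncomputable def dzb (G : ℂ → ℂ) (z : ℂ) : ℂ :=
  (fderiv ℝ G z 1 + Complex.I * fderiv ℝ G z Complex.I) / 2

lemma dz_sq (G : ℂ → ℂ) (z : ℂ) : ‖dz G z‖ ^ 2 = ‖dzb G z‖ ^ 2 +
    ((starRingEnd ℂ) (fderiv ℝ G z 1) * fderiv ℝ G z Complex.I).im := by
  unfold dz dzb
  rw [← Complex.normSq_eq_norm_sq, ← Complex.normSq_eq_norm_sq, Complex.normSq_apply,
    Complex.normSq_apply]
  simp only [Complex.div_ofNat_re, Complex.div_ofNat_im, Complex.sub_re, Complex.sub_im,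
    Complex.add_re, Complex.add_im, Complex.mul_re, Complex.mul_im, Complex.I_re, Complex.I_im,
    Complex.conj_re, Complex.conj_im]
  ring

/-- The two complex derivatives of a section have the same norm. -/
theorem dz_dzb (hG : GreenTri) {S : Surf n} {ζ : Side n → ℂ} {G : Fin n → ℂ → ℂ}
    (h : S.Sec ζ G) (hζ : ∀ s, ‖ζ s‖ = 1) :
    ∑ i : Fin n, ∫ z in S.tri i, ‖dz (G i) z‖ ^ 2 =
      ∑ i : Fin n, ∫ z in S.tri i, ‖dzb (G i) z‖ ^ 2 := by
  obtain ⟨K, hK⟩ := h.lip
  have h1 : ∀ i : Fin n, ∫ z in S.tri i, ‖dz (G i) z‖ ^ 2 =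
      (∫ z in S.tri i, ‖dzb (G i) z‖ ^ 2) + ∫ z in S.tri i,
        ((starRingEnd ℂ) (fderiv ℝ (G i) z 1) * fderiv ℝ (G i) z Complex.I).im := by
    intro i
    have hx := memLp_fd (tri_convex S i) (tri_compact S i) (hK i) 1 2
    have hy := memLp_fd (tri_convex S i) (tri_compact S i) (hK i) Complex.I 2
    have h2 : MemLp (fun z => dzb (G i) z) 2 (volume.restrict (S.tri i)) := by
      have := (hx.add (hy.const_mul Complex.I)).const_mul (1 / 2)
      refine this.ae_eq (Filter.Eventually.of_forall fun z => ?_)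
      simp only [dzb, Pi.add_apply]
      ring
    have h3 : Integrable (fun z => ‖dzb (G i) z‖ ^ 2) (volume.restrict (S.tri i)) := by
      simpa using h2.integrable_norm_rpow (by simp) (by simp)
    have h4 : Integrable (fun z => ((starRingEnd ℂ) (fderiv ℝ (G i) z 1) *
        fderiv ℝ (G i) z Complex.I).im) (volume.restrict (S.tri i)) :=
      (int_conj_fd (tri_convex S i) (tri_compact S i) (hK i) (hK i) 1 Complex.I).im
    rw [← integral_add h3 h4]
    exact integral_congr_ae (Filter.Eventually.of_forall fun z => dz_sq (G i) z)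
  rw [Finset.sum_congr rfl fun i _ => h1 i, Finset.sum_add_distrib, jac_zero hG h hζ, add_zero]

end Pool.Agent.H93.GTD
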