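import Mathlib
import Pool.Agent.H85.SC.Targets
import Pool.Agent.H93.ET.Defs

/-!
# The dichotomy for the synthesis property: definitions

`d` is nondecreasing and positive, `∑ 1 / d(n)² < ∞`. To every tree `S` we attach an equivalence
relation with finite classes of growth `d` which has the synthesis property if and only if `S` has
no infinite branch. Stations `(n, i)` (three Legendre characters) sit in short windows
`[X r, X r + L r)`, `r = slot n i`; the flow goes from station to station through pipes, which are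
sequences of windows `b n i m`.
-/

namespace Pool.Agent.H93.GT

open MeasureTheory AddCircle Finset Pool.Agent.H87.Synth Pool.Agent.H85.SC
open Pool.Agent.H93.ET (sg jj iE iA)

/-- modulus of the lines of the node `n` -/
def Mo (n : ℕ) : ℕ := 4 ^ (Nat.size n + 1)

/-- number of the line of the station `(n, i)`: one for `i = 2^a`, three otherwise -/
def lc (i : ℕ) : ℤ := if i = 2 ^ lg i then 1 else 3

/-- residue class `e` modulo six in the line `c` of the node `n` -/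
def lr (c : ℤ) (n : ℕ) (e z : ℤ) : Prop :=
  (6 * (Mo n : ℤ)) ∣ z - cc n - c * 4 ^ Nat.size n - Mo n * e

/-- parity of a pipe -/
def rho (i : ℕ) : ℤ := if i = 2 ^ lg i then (lg i : ℤ) % 2 else (i : ℤ) % 2

/-- the points of the pipe `(n, i)` -/
def pp (n i : ℕ) (t κ : ℤ) (s : Bool) : ℤ :=
  cc n + lc i * 4 ^ Nat.size n + Mo n * (12 * t + 6 * κ + 2 * rho i + jj s)

/-- slot of the station from which the pipe `(n, i)` starts -/
def ps (n i : ℕ) : ℕ :=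
  if i = 2 ^ lg i then
    (if n < 2 ^ (lg i - 1) then slot n (2 ^ (lg i - 1)) else slot (n - 2 ^ (lg i - 1)) (i - 1))
  else slot n (i - 1)

/-- positions, windows and weights -/
structure Pos (d : ℕ → ℝ) where
  X : ℕ → ℕ
  L : ℕ → ℕ
  N : ℕ → ℕ → ℕ
  b : ℕ → ℕ → ℕ → ℕ
  g : ℕ → ℕ → ℤ → ℝ
  T : ℕ → ℕ → ℕ → Finset ℤ
  hLQ : ∀ r, (6 * QQ r) ^ 2 ∣ L r
  hXQ : ∀ r, 3 * QQ r ∣ X r
  hL : ∀ r, 0 < L r ∧ L r ≤ X r
  hXL : ∀ r, (6 * QQ (r + 1)) ^ 2 * X r ≤ L (r + 1)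
  hLd : ∀ r, 4 * (L r : ℝ) ≤ d (X r / (100 * 4 ^ (r + 3)))
  hb0 : ∀ n i, Valid n i → i ≠ 1 → 12 * Mo n * b n i 0 = X (ps n i)
  hbN : ∀ n i, Valid n i → i ≠ 1 → 12 * Mo n * b n i (N n i) = X (slot n i)
  hbm : ∀ n i m, Valid n i → i ≠ 1 → m < N n i →
    b n i m < b n i (m + 1) ∧ b n i (m + 1) ≤ 2 * b n i m
  ln1 : ∀ n i m, Valid n i → i ≠ 1 → m < N n i →
    100 * (Mo n : ℝ) * ((b n i (m + 1) : ℝ) - b n i m) ≤ d (b n i m)
  ln2 : ∀ n i m, Valid n i → i ≠ 1 → m + 1 < N n i →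
    100 * (Mo n : ℝ) * ((b n i (m + 2) : ℝ) - b n i m) ≤ d (b n i m)
  gsupp : ∀ n i t, Valid n i → i ≠ 1 → g n i t ≠ 0 →
    (b n i 0 : ℤ) ≤ 2 * |t| ∧ |t| < 2 * (b n i (N n i) : ℤ)
  gnorm : ∀ n i (w : ℂ), Valid n i → i ≠ 1 → ‖w‖ = 1 →
    ‖∑ t ∈ Ioo (-(2 * (b n i (N n i) : ℤ))) (2 * (b n i (N n i) : ℤ)), (g n i t : ℂ) * w ^ t‖ ≤
      (1 / 2) ^ slot n i
  hT : ∀ n i m, Valid n i → i ≠ 1 → m < N n i →
    T n i m ⊆ Ico (b n i m : ℤ) (b n i (m + 1)) ∧ (∀ t ∈ T n i m, g n i t ≠ 0) ∧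
      ∑ t ∈ T n i m, |g n i t| = 2 ^ lvl n i

/-- index set of the classes -/
inductive GC : Type
  | blk (n i m : ℕ) (s : Bool) : GC
  | sta (n i : ℕ) (s : Bool) : GC
  | lst (n i : ℕ) : GC
  | ldr (n i : ℕ) : GC
  | par (n i : ℕ) (t : ℤ) (s : Bool) : GC

namespace Pos

variable {d : ℕ → ℝ} (P : Pos d)

/-- the region of the station `(n, i)` -/
def Reg (n i : ℕ) (z : ℤ) : Prop :=
  Valid n i ∧ (P.X (slot n i) : ℤ) ≤ z ∧ z < P.X (slot n i) + P.L (slot n i) ∧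
    lr (lc i) n 4 z ∧ chi (lvl n i) 0 z ≠ 0 ∧ chi (lvl n i) 1 z ≠ 0 ∧ chi (lvl n i) 2 z ≠ 0

open Classical in
noncomputable def RS (n i : ℕ) : Finset ℤ :=
  (Ico (P.X (slot n i) : ℤ) (P.X (slot n i) + P.L (slot n i))).filter (P.Reg n i)

/-- absorbing, stay and drop points -/
noncomputable def FA (n i : ℕ) (s : ℤ) : Finset ℤ :=
  (P.RS n i).filter fun z => s1 n i z = s ∧ s2 n i z = s ∧ s3 n i z = s
noncomputable def FS (n i : ℕ) (s : ℤ) : Finset ℤ :=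
  (P.RS n i).filter fun z => s1 n i z = s ∧ s2 n i z = s ∧ s3 n i z = -s
noncomputable def FD (n i : ℕ) (s : ℤ) : Finset ℤ :=
  (P.RS n i).filter fun z => s1 n i z ≠ s2 n i z ∧ s3 n i z = s

open Classical in
/-- the emitting points from which the pipe `(n, i)` starts -/
noncomputable def EM (n i : ℕ) (s : ℤ) : Finset ℤ :=
  if i = 2 ^ lg i then
    (if n < 2 ^ (lg i - 1) then P.FS n (2 ^ (lg i - 1)) s
      else P.FD (n - 2 ^ (lg i - 1)) (i - 1) s)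
  else P.FD n (i - 1) s

/-- number of points with a given sign pattern -/
noncomputable def cnt (n i : ℕ) : ℕ :=
  P.L (slot n i) / (6 * Mo n * PP (lvl n i)) *
    ((pr (lvl n i) 0 - 1) / 2 * ((pr (lvl n i) 1 - 1) / 2) * ((pr (lvl n i) 2 - 1) / 2))

/-- the weight at a point of a station -/
noncomputable def wt (n i : ℕ) (z : ℤ) : ℂ :=
  -((2 : ℂ) ^ lvl n i / P.cnt n i) * ((s1 n i z * s2 n i z * s3 n i z : ℤ) : ℂ)

/-- absorbing and emitting points of window `m` of the pipe `(n, i)` -/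
noncomputable def AB (n i m : ℕ) (s : Bool) : Finset ℤ :=
  (P.T n i m).image fun t => pp n i t (iA (P.g n i t)) s
noncomputable def EB (n i m : ℕ) (s : Bool) : Finset ℤ :=
  (P.T n i m).image fun t => pp n i t (iE (P.g n i t)) s

open Classical in
/-- the classes -/
noncomputable def cls (S : Set ℕ) : GC → Finset ℤ
  | GC.blk n i m s => if n ∈ S ∧ Valid n i ∧ i ≠ 1 ∧ m < P.N n i then
      P.AB n i m s ∪ (if m = 0 then P.EM n i (sg s) else P.EB n i (m - 1) s) else ∅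
  | GC.sta n i s => if n ∈ S ∧ Valid n i ∧ i ≠ 1 then
      P.FA n i (sg s) ∪ P.EB n i (P.N n i - 1) s else ∅
  | GC.lst n i => if n ∈ S ∧ Valid n i ∧ i ≠ 2 ^ lg i then P.FS n i 1 ∪ P.FS n i (-1) else ∅
  | GC.ldr n i => if n ∈ S ∧ Valid n i ∧ i + 1 = 2 ^ (lg i + 1) ∧ n + 2 ^ lg i ∉ S then
      P.FD n i 1 ∪ P.FD n i (-1) else ∅
  | GC.par n i t s => if n ∈ S ∧ Valid n i ∧ i ≠ 1 ∧ P.g n i t ≠ 0 ∧
      (∀ m, m < P.N n i → t ∉ P.T n i m) then {pp n i t 0 s, pp n i t 1 s} else ∅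

open Classical in
/-- the label of an integer -/
noncomputable def lab (S : Set ℕ) (z : ℤ) : GC ⊕ ℤ :=
  if h : ∃ c, z ∈ P.cls S c then Sum.inl h.choose else Sum.inr z

/-- the equivalence relation attached to `S` -/
noncomputable def grel (S : Set ℕ) : Setoid ℤ := Setoid.ker (P.lab S)

open Classical in
/-- index set of the points of a pipe -/
noncomputable def IX (n i : ℕ) : Finset (ℤ × ℤ × Bool) :=
  (Ioo (-(2 * (P.b n i (P.N n i) : ℤ))) (2 * (P.b n i (P.N n i) : ℤ))).filter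
      (fun t => P.g n i t ≠ 0) ×ˢ (({0, 1} : Finset ℤ) ×ˢ (Finset.univ : Finset Bool))

/-- sums over absorbing, stay, drop points, over the source of a pipe and over a pipe -/
noncomputable def gA (g : ℤ → ℂ) (n i : ℕ) : ℂ := ∑ z ∈ P.FA n i 1, g z + ∑ z ∈ P.FA n i (-1), g z
noncomputable def gS (g : ℤ → ℂ) (n i : ℕ) : ℂ := ∑ z ∈ P.FS n i 1, g z + ∑ z ∈ P.FS n i (-1), g z
noncomputable def gD (g : ℤ → ℂ) (n i : ℕ) : ℂ := ∑ z ∈ P.FD n i 1, g z + ∑ z ∈ P.FD n i (-1), g z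
noncomputable def gE (g : ℤ → ℂ) (n i : ℕ) : ℂ := ∑ z ∈ P.EM n i 1, g z + ∑ z ∈ P.EM n i (-1), g z
noncomputable def gP (g : ℤ → ℂ) (n i : ℕ) : ℂ :=
  ∑ x ∈ P.IX n i, g (pp n i x.1 x.2.1 x.2.2)

/-- the flow into the node `n` -/
noncomputable def gI (g : ℤ → ℂ) (n : ℕ) : ℂ := if n = 0 then 0 else P.gE g n (2 ^ Nat.size n)

/-- `Λ` kills the idempotents of the classes -/
def Kl (S : Set ℕ) (Λ : L1 →L[ℂ] ℂ) : Prop :=
  (∀ c, ∑ z ∈ P.cls S c, Λ (ex z) = 0) ∧ ∀ z, (∀ c, z ∉ P.cls S c) → Λ (ex z) = 0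

/-- the coefficients of `f` are constant on the classes -/
def Cst (S : Set ℕ) (f : L1) : Prop :=
  ∀ c, ∀ z ∈ P.cls S c, ∀ z' ∈ P.cls S c, coeff f z = coeff f z'

/-- sums over the classes vanish -/
def Rls (S : Set ℕ) (g : ℤ → ℂ) : Prop :=
  (∀ c, ∑ z ∈ P.cls S c, g z = 0) ∧ ∀ z, (∀ c, z ∉ P.cls S c) → g z = 0

/-- the cut-offs -/
noncomputable def VG (r : ℕ) (z : ℤ) : ℝ := trap (4 * P.X r) (P.X (r + 1) / 4) z

/-- the cut-off of the lines of the node `n` behind the station `(n, 2^a)` -/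
noncomputable def MM (n a : ℕ) (z : ℤ) : ℂ :=
  (ind (lr 1 n (2 * (((a : ℤ) + 1) % 2))) z + ind (lr 1 n (2 * (((a : ℤ) + 1) % 2) + 1)) z) *
      P.VG (slot n (2 ^ a) - 1) z +
    (ind (lr 1 n (2 * ((a : ℤ) % 2))) z + ind (lr 1 n (2 * ((a : ℤ) % 2) + 1)) z +
      ind (lr 1 n 4) z + ind (lr 1 n 5) z) * P.VG (slot n (2 ^ a)) z +
    ind (ing n) z * P.VG (slot n (2 ^ (a + 1) - 1)) z

end Pos

/-- the selector of the stay points of the chain stations of the node `n` -/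
noncomputable def trg (n a : ℕ) (z : ℤ) : ℂ :=
  ind (lr 1 n 4) z * ((1 + (chi n 0 z : ℂ) * chi n 1 z) *
    (1 - (-1) ^ a * ((chi n 0 z : ℂ) * chi n 2 z)) / 4)

open Classical in
/-- the value of the function of a branch along the pipe `(n, i)` -/
noncomputable def qv (v a : ℕ → ℕ) (n i : ℕ) : ℂ :=
  if ∃ k, n = v k ∧ ((i = 2 ^ lg i ∧ lg i ≤ a k) ∨ lg i = a k) then (1 / 2) ^ lvl n i else 0

namespace Pos

variable {d : ℕ → ℝ} (P : Pos d)

/-- values of the function attached to a branch -/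
def FVb (v a : ℕ → ℕ) (f : L1) : Prop :=
  (∀ n i z, P.Reg n i z → coeff f z = pv v a n i z) ∧
  ∀ n i t κ s, Valid n i → i ≠ 1 → P.g n i t ≠ 0 → (κ = 0 ∨ κ = 1) →
    coeff f (pp n i t κ s) = qv v a n i * (sg s : ℂ)

/-- values of the functional attached to `S` -/
def GVs (S : Set ℕ) (Λ : L1 →L[ℂ] ℂ) : Prop :=
  (∀ n i z, n ∈ S → P.Reg n i z → Λ (ex z) =
    if i = 1 ∧ s1 n i z = s2 n i z ∧ s1 n i z = s3 n i z then 0 else P.wt n i z) ∧
  (∀ n i t κ s, n ∈ S → Valid n i → i ≠ 1 → P.g n i t ≠ 0 → (κ = 0 ∨ κ = 1) →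
    Λ (ex (pp n i t κ s)) = (1 - 2 * (κ : ℂ)) * (sg s : ℂ) * (P.g n i t : ℂ)) ∧
  ∀ z, (∀ n i, n ∈ S → ¬ P.Reg n i z) →
    (∀ n i t κ s, n ∈ S → Valid n i → i ≠ 1 → P.g n i t ≠ 0 → (κ = 0 ∨ κ = 1) →
      z ≠ pp n i t κ s) → Λ (ex z) = 0

/-- the weight of the station `(n, i)` on its window -/
noncomputable def wx (n i : ℕ) (z : ℤ) : ℂ :=
  -((2 : ℂ) ^ lvl n i / P.cnt n i) * (-1) ^ lg i *
    (ind (lr (lc i) n 4) z * (chi (lvl n i) 0 z : ℂ) * (chi (lvl n i) 1 z : ℂ) *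
      (chi (lvl n i) 2 z : ℂ))

open Classical in
/-- the coefficients of the piece of the station `(n, i)` -/
noncomputable def pmg (n i : ℕ) (z : ℤ) : ℂ :=
  (1 / 2) ^ lvl n i *
    (if i = 2 ^ lg i then
      ind (lr 1 n 4) z * (((chi (lvl n i) 0 z : ℂ) + chi (lvl n i) 1 z) / 4 *
          ((P.VG (slot n i) z : ℂ) + P.VG (slot n i - 1) z) +
        (-1) ^ lg i * (chi (lvl n i) 2 z : ℂ) / 2 *
          ((P.VG (slot n i) z : ℂ) - P.VG (slot n i - 1) z))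
    else
      ind (lr 3 n 4) z * (((chi (lvl n i) 0 z : ℂ) + chi (lvl n i) 1 z) / 4 +
        (-1) ^ lg i * (chi (lvl n i) 2 z : ℂ) / 2) *
          ((P.VG (slot n i) z : ℂ) - P.VG (slot n i - 1) z))

open Classical in
/-- the coefficients of the piece of the pipes with last pipe `(n, i)` -/
noncomputable def qmg (n i : ℕ) (z : ℤ) : ℂ :=
  (1 / 2) ^ lvl n i *
    (if i = 2 ^ lg i then
      (ind (lr 1 n (2 * ((lg i : ℤ) % 2))) z - ind (lr 1 n (2 * ((lg i : ℤ) % 2) + 1)) z) *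
          P.VG (slot n i) z +
        (ind (lr 1 n (2 * (((lg i : ℤ) + 1) % 2))) z -
          ind (lr 1 n (2 * (((lg i : ℤ) + 1) % 2) + 1)) z) * P.VG (slot n i - 1) z
    else
      (ind (lr 3 n (2 * ((i : ℤ) % 2))) z - ind (lr 3 n (2 * ((i : ℤ) % 2) + 1)) z) *
        ((P.VG (slot n i) z : ℂ) - P.VG (ps n i - 1) z))

end Pos

/-- average of `h z * w^z` over a window -/
noncomputable def avg (X L : ℕ) (h : ℤ → ℂ) (w : ℂ) : ℂ :=
  (1 / (L : ℂ)) * ∑ z ∈ Ico (X : ℤ) (X + L), h z * w ^ z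

open Classical in
/-- the relation as a Boolean matrix -/
noncomputable def grelB {d : ℕ → ℝ} (P : Pos d) (S : Set ℕ) : ℤ → ℤ → Bool :=
  fun m n => decide (P.grel S m n)

/-- the smallest absolute value in the class of `n` -/
noncomputable def mn (r : Setoid ℤ) (n : ℤ) : ℕ := sInf {j | ∃ m, r n m ∧ m.natAbs = j}

/-- the total length of the finite classes of `r` over the level `k` is at most `w k`: the sum of
`|n| - mn r n` over the `n` in finite classes with `mn r n ≤ k < |n|` -/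
def Cross (r : Setoid ℤ) (w : ℕ → ℝ) : Prop :=
  ∀ (k : ℕ) (F : Finset ℤ), (∀ n ∈ F, {j | r n j}.Finite ∧ mn r n ≤ k ∧ k < n.natAbs) →
    ∑ n ∈ F, ((n.natAbs : ℝ) - mn r n) ≤ w k

/-- growth `d` of all classes -/
def Growth (r : Setoid ℤ) (d : ℕ → ℝ) : Prop :=
  ∀ m n, r m n → |(m.natAbs : ℝ) - n.natAbs| ≤ d (min m.natAbs n.natAbs)

end Pool.Agent.H93.GT
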