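import Pool.Agent.H93.GT.Targets

/-! Module GFU: the functional. -/

set_option autoImplicit false

open Pool.Agent.H93.GT Pool.Agent.H87.Synth Pool.Agent.H85.SC Finset
open Pool.Agent.H93.ET (sg jj iE iA T_KKL T_CUT T_BRK T_SER T_CRI)

namespace Pool.Agent.H93.GT

theorem gfu (h1 : T_GST) (h2 : T_GPB) (h3 : T_GUQ) : T_GFU := by
  intro d P S hS
  obtain ⟨Λ1, a1, a2, a3⟩ := h1 d P S hS
  obtain ⟨Λ2, b1, b2, b3⟩ := h2 d P S
  obtain ⟨-, -, u3, -⟩ := h3 d P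
  refine ⟨Λ1 + Λ2, ⟨?_, ?_, ?_⟩, ?_⟩
  · intro n i z hn hz
    rw [add_apply, a1 n i z hn hz, b2 z ?_, add_zero]
    intro n' i' t κ s _ _ _ _ hκ
    exact u3 n i z n' i' t κ s hz hκ
  · intro n i t κ s hn hV hi hg hκ
    rw [add_apply, b1 n i t κ s hn hV hi hg hκ, a2 _ ?_, zero_add]
    intro n' i' _ hz
    exact u3 n' i' _ n i t κ s hz hκ rfl
  · intro z hz1 hz2
    rw [add_apply, a2 z hz1, b2 z hz2, add_zero]
  · intro v a hbr f hf
    rw [add_apply, a3 v a hbr f hf, b3 v a f hf, add_zero]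

end Pool.Agent.H93.GT
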