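import Pool.Agent.H93.GT.Targets
import Pool.Agent.H85.SC.LEK

/-! Module GLK: without a branch, functionals which kill the classes kill the class-constant
functions. -/

set_option autoImplicit false

open Filter Topology

namespace Pool.Agent.H93.GT

open Pool.Agent.H87.Synth Pool.Agent.H85.SC

theorem glk (hNOD : T_GND) (hKSP : T_GKS) (hAPM : T_GAM) (hMUL : T_MUL) : T_GLK := by
  intro d P S hS hB Λ f hK hf
  by_contra hne
  obtain ⟨-, hAh, hAg, hAK, -⟩ := hAPM
  have hex : ∀ n a, ∃ x, Act (ind (inK n a)) f x := fun n a => by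
    obtain ⟨x, hx, _⟩ := hMUL.2.2.2.2.2.2.2.1 _ _ (hAK n a) f
    exact ⟨x, hx⟩
  choose w hw using hex
  have hexh : ∀ n, ∃ x, Act (ind (inh n)) f x := fun n => by
    obtain ⟨x, hx, _⟩ := hMUL.2.2.2.2.2.2.2.1 _ _ (hAh n) f
    exact ⟨x, hx⟩
  choose xh hxh using hexh
  have hexg : ∀ n, ∃ x, Act (ind (ing n)) f x := fun n => by
    obtain ⟨x, hx, _⟩ := hMUL.2.2.2.2.2.2.2.1 _ _ (hAg n) f
    exact ⟨x, hx⟩
  choose xg hxg using hexg
  set g : ℤ → ℂ := fun z => coeff f z * Λ (ex z) with hg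
  let L : ℕ → ℂ := fun n => P.gI g n + Λ (w n (Nat.size n))
  have hgI : ∀ n b, P.gI g (n + 2 ^ b) = P.gE g (n + 2 ^ b) (2 ^ Nat.size (n + 2 ^ b)) := by
    intro n b
    unfold Pos.gI
    rw [if_neg]
    have : 0 < 2 ^ b := by positivity
    omega
  -- the recursion
  have hrec : ∀ n ∈ S, Tendsto (fun a => ∑ b ∈ kids S n a, L (n + 2 ^ b)) atTop (𝓝 (L n)) := by
    intro n hn
    have h1 := hNOD d P S hS Λ f hK hf n hn (xh n) (xg n) (hxh n) (hxg n)
    have h2 := hKSP d P S hS Λ f hK n hn (xh n) (xg n) (w n (Nat.size n)) (hxh n) (hxg n)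
      (hw n (Nat.size n)) (fun b => w (n + 2 ^ b) (b + 1)) (fun b => hw _ _)
    have h3 := h1.add h2
    have h4 : Λ (xh n) + Λ (xg n) + P.gI (fun z => coeff f z * Λ (ex z)) n +
        (Λ (w n (Nat.size n)) - Λ (xh n) - Λ (xg n)) = L n := by
      simp only [L, g]
      ring
    rw [h4] at h3
    refine h3.congr fun a => ?_
    rw [← Finset.sum_add_distrib]
    refine Finset.sum_congr rfl fun b hb => ?_
    have hb' : Nat.size n ≤ b := (mem_kids.1 hb).1.1
    simp only [L]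
    rw [hgI, size_add_pow hb']
  have hstep : ∀ n ∈ S, L n ≠ 0 → ∃ b, n < 2 ^ b ∧ n + 2 ^ b ∈ S ∧ L (n + 2 ^ b) ≠ 0 := by
    intro n hn hL
    by_contra hcon
    push Not at hcon
    apply hL
    refine tendsto_nhds_unique (hrec n hn) ?_
    refine tendsto_const_nhds.congr fun a => ?_
    refine (Finset.sum_eq_zero fun b hb => ?_).symm
    exact hcon b (Nat.size_le.1 (mem_kids.1 hb).1.1) (mem_kids.1 hb).2
  have hL0 : L 0 ≠ 0 := by
    have h1 : P.gI g 0 = 0 := by
      unfold Pos.gI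
      rw [if_pos rfl]
    have h2 : w 0 (Nat.size 0) = f := by
      apply ext_coeff
      intro z
      rw [hw 0 (Nat.size 0) z]
      have : inK 0 (Nat.size 0) z := by
        unfold inK
        rw [Nat.size_zero, pow_zero]
        exact one_dvd _
      unfold ind
      rw [if_pos this, one_mul]
    simp only [L]
    rw [h1, h2, zero_add]
    exact hne
  -- the branch
  choose! bb hb1 hb2 hb3 using hstep
  let v : ℕ → ℕ := fun k => Nat.rec 0 (fun _ n => n + 2 ^ bb n) k
  have hvs : ∀ k, v (k + 1) = v k + 2 ^ bb (v k) := fun k => rfl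
  have hv : ∀ k, v k ∈ S ∧ L (v k) ≠ 0 := by
    intro k
    induction k with
    | zero => exact ⟨hS.1, hL0⟩
    | succ k ih =>
      rw [hvs]
      exact ⟨hb2 _ ih.1 ih.2, hb3 _ ih.1 ih.2⟩
  exact hB ⟨v, rfl, fun k => (hv k).1, fun k => ⟨bb (v k), hb1 _ (hv k).1 (hv k).2, hvs k⟩⟩

end Pool.Agent.H93.GT
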