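import Pool.Agent.H93.GT.Targets

/-! Module GMV: the values of the cut-off of a node. -/

set_option autoImplicit false

open Pool.Agent.H93.GT Pool.Agent.H87.Synth Pool.Agent.H85.SC Finset
open Pool.Agent.H93.ET (sg jj iE iA T_KKL T_CUT T_BRK T_SER T_CRI)

namespace Pool.Agent.H93.GT

theorem ind_t {P : ℤ → Prop} {z : ℤ} (h : P z) : ind P z = 1 := by
  simp [ind, h]

theorem ind_f {P : ℤ → Prop} {z : ℤ} (h : ¬ P z) : ind P z = 0 := by
  simp [ind, h]

theorem slot_lt {n i i' : ℕ} (h : i' < i) : slot n i' < slot n i := by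
  unfold slot
  have : i' ^ 2 < i ^ 2 := Nat.pow_lt_pow_left h (by norm_num)
  omega

theorem slot_le {n i i' : ℕ} (h : i' ≤ i) : slot n i' ≤ slot n i := by
  rcases h.lt_or_eq with h | h
  · exact (slot_lt h).le
  · rw [h]

theorem jj_cases (s : Bool) : jj s = 0 ∨ jj s = 1 := by
  cases s <;> simp [jj]

/-- values of the indicator functions of the lines -/
theorem ind_lr (h2 : T_LNS) (h6 : T_APD) {c c' e e' z : ℤ} {n n' : ℕ} (hc : c = 1 ∨ c = 3)
    (hc' : c' = 1 ∨ c' = 3) (he : 0 ≤ e ∧ e < 6) (he' : 0 ≤ e' ∧ e' < 6)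
    (h : lr c' n' e' z) : ind (lr c n e) z = if c = c' ∧ n = n' ∧ e = e' then 1 else 0 := by
  obtain ⟨-, -, l3, l4, l5, -⟩ := h2
  obtain ⟨a1, a2, a3, -⟩ := h6
  by_cases hE : c = c' ∧ n = n' ∧ e = e'
  · obtain ⟨rfl, rfl, rfl⟩ := hE
    rw [ind_t h, if_pos ⟨rfl, rfl, rfl⟩]
  · rw [if_neg hE]
    refine ind_f fun hl => hE ?_
    rcases hc with rfl | rfl <;> rcases hc' with rfl | rfl
    · have := a1 _ _ _ (l4 _ _ _ hl) (l4 _ _ _ h)
      subst this
      exact ⟨rfl, rfl, l3 _ _ _ _ _ he.1 he.2 he'.1 he'.2 hl h⟩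
    · exact absurd (l5 _ _ _ h) (a3 _ _ _ (l4 _ _ _ hl))
    · exact absurd (l5 _ _ _ hl) (a3 _ _ _ (l4 _ _ _ h))
    · have := a2 _ _ _ (l5 _ _ _ hl) (l5 _ _ _ h)
      subst this
      exact ⟨rfl, rfl, l3 _ _ _ _ _ he.1 he.2 he'.1 he'.2 hl h⟩

theorem ind_ing (h2 : T_LNS) (h6 : T_APD) {c' e' z : ℤ} {n n' : ℕ}
    (hc' : c' = 1 ∨ c' = 3) (h : lr c' n' e' z) :
    ind (ing n) z = if c' = 3 ∧ n = n' then 1 else 0 := by
  obtain ⟨-, -, l3, l4, l5, -⟩ := h2
  obtain ⟨a1, a2, a3, -⟩ := h6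
  rcases hc' with rfl | rfl
  · rw [if_neg (by omega)]
    exact ind_f (a3 _ _ _ (l4 _ _ _ h))
  · by_cases hn : n = n'
    · subst hn
      rw [if_pos ⟨rfl, rfl⟩]
      exact ind_t (l5 _ _ _ h)
    · rw [if_neg fun h => hn h.2]
      exact ind_f fun hl => hn (a2 _ _ _ hl (l5 _ _ _ h))

theorem X_mono (h4 : T_GSZ) {d : ℕ → ℝ} (P : Pos d) {r r' : ℕ} (h : r ≤ r') :
    P.X r ≤ P.X r' := by
  rcases h.lt_or_eq with h | h
  · have := ((h4 d P).2.2.1 r r' h).1
    omega
  · rw [h]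

theorem VG_reg (h1 : T_GVL) (h4 : T_GSZ) {d : ℕ → ℝ} (P : Pos d) {n i : ℕ} {z : ℤ}
    (hz : P.Reg n i z) (r : ℕ) : P.VG r z = if slot n i ≤ r then 1 else 0 := by
  obtain ⟨v1, v2, -⟩ := h1 d P
  obtain ⟨-, hz1, hz2, -⟩ := hz
  have hL := (P.hL (slot n i)).2
  have hz0 : (0 : ℤ) ≤ z := le_trans (by positivity) hz1
  have hz3 : z < 2 * P.X (slot n i) := by
    have : (P.L (slot n i) : ℤ) ≤ P.X (slot n i) := by exact_mod_cast hL
    linarith
  by_cases h : slot n i ≤ r
  · rw [if_pos h]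
    apply v1
    rw [abs_of_nonneg hz0]
    have : (P.X (slot n i) : ℤ) ≤ P.X r := by exact_mod_cast X_mono h4 P h
    linarith
  · rw [if_neg h]
    apply v2
    rw [abs_of_nonneg hz0]
    have : (P.X (r + 1) : ℤ) ≤ P.X (slot n i) := by exact_mod_cast X_mono h4 P (by omega)
    linarith

theorem VG_pipe (h1 : T_GVL) (h3 : T_ZON) (h4 : T_GSZ) {d : ℕ → ℝ} (P : Pos d) {n i : ℕ}
    {t κ : ℤ} {s : Bool} (hV : Valid n i) (hi : i ≠ 1) (hg : P.g n i t ≠ 0)
    (hκ : κ = 0 ∨ κ = 1) (r : ℕ) :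
    (slot n i ≤ r → P.VG r (pp n i t κ s) = 1) ∧ (r < ps n i → P.VG r (pp n i t κ s) = 0) := by
  obtain ⟨v1, v2, -⟩ := h1 d P
  obtain ⟨z1, z2⟩ := (h3 d P).1 n i t κ s hV hi hg hκ
  constructor
  · intro h
    apply v1
    have : (P.X (slot n i) : ℤ) ≤ P.X r := by exact_mod_cast X_mono h4 P h
    linarith
  · intro h
    apply v2
    have : (P.X (r + 1) : ℤ) ≤ P.X (ps n i) := by exact_mod_cast X_mono h4 P h
    linarith

theorem lc_pow {i : ℕ} (h : i = 2 ^ lg i) : lc i = 1 := by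
  unfold lc
  rw [if_pos h]

theorem lc_npow {i : ℕ} (h : i ≠ 2 ^ lg i) : lc i = 3 := by
  unfold lc
  rw [if_neg h]

theorem lt_pow_of_size {n a : ℕ} (h : Nat.size n ≤ a) : n < 2 ^ a := Nat.size_le.1 h

theorem ps_pow {n a : ℕ} (hn : n < 2 ^ (a - 1)) : ps n (2 ^ a) = slot n (2 ^ (a - 1)) := by
  unfold ps
  have h : lg (2 ^ a) = a := Nat.log_pow (by norm_num) a
  rw [h, if_pos rfl, if_pos hn]

theorem ps_npow {n i : ℕ} (h : i ≠ 2 ^ lg i) : ps n i = slot n (i - 1) := by
  unfold ps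
  rw [if_neg h]

theorem rho_pow {i : ℕ} (h : i = 2 ^ lg i) : rho i = (lg i : ℤ) % 2 := by
  unfold rho
  rw [if_pos h]

theorem pow_lt_iff {i a : ℕ} (h : i = 2 ^ lg i) : i < 2 ^ (a + 1) ↔ lg i ≤ a := by
  constructor
  · intro h'
    rw [h] at h'
    have := (Nat.pow_lt_pow_iff_right (by norm_num : 1 < 2)).1 h'
    omega
  · intro h'
    rw [h]
    exact Nat.pow_lt_pow_right (by norm_num) (by omega)

theorem gmv (h1 : T_GVL) (h2 : T_LNS) (h3 : T_ZON) (h4 : T_GSZ) (h6 : T_APD) : T_GMV := by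
  intro d P n a ha
  have hna : n < 2 ^ a := lt_pow_of_size ha
  obtain ⟨-, -, -, -, -, l6, -⟩ := id h2
  have hslotpos : ∀ i, 1 ≤ i → 1 ≤ slot n i := by
    intro i hi
    unfold slot
    have : 1 ≤ i ^ 2 := Nat.one_le_pow _ _ hi
    omega
  have h2a : 1 ≤ 2 ^ a := Nat.one_le_two_pow
  have hsp := hslotpos (2 ^ a) h2a
  refine ⟨?_, ?_, ?_⟩
  · intro n' i z hz
    have hl := hz.2.2.2.1
    have hV := hz.1
    have hc' : lc i = 1 ∨ lc i = 3 := by
      unfold lc
      split_ifs <;> simp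
    have i1 : ∀ e : ℤ, 0 ≤ e → e < 6 → ind (lr 1 n e) z =
        if 1 = lc i ∧ n = n' ∧ e = 4 then 1 else 0 := fun e e0 e1 =>
      ind_lr h2 h6 (Or.inl rfl) hc' ⟨e0, e1⟩ ⟨by norm_num, by norm_num⟩ hl
    have i2 := ind_ing (n := n) h2 h6 hc' hl
    unfold Pos.MM
    rw [i1 _ (by omega) (by omega), i1 _ (by omega) (by omega), i1 _ (by omega) (by omega),
      i1 _ (by omega) (by omega), i1 4 (by norm_num) (by norm_num), i1 5 (by norm_num)
      (by norm_num), i2, VG_reg h1 h4 P hz, VG_reg h1 h4 P hz, VG_reg h1 h4 P hz]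
    rw [if_neg (show ¬ (1 = lc i ∧ n = n' ∧ 2 * (((a : ℤ) + 1) % 2) = 4) by omega),
      if_neg (show ¬ (1 = lc i ∧ n = n' ∧ 2 * (((a : ℤ) + 1) % 2) + 1 = 4) by omega),
      if_neg (show ¬ (1 = lc i ∧ n = n' ∧ 2 * ((a : ℤ) % 2) = 4) by omega),
      if_neg (show ¬ (1 = lc i ∧ n = n' ∧ 2 * ((a : ℤ) % 2) + 1 = 4) by omega),
      if_neg (show ¬ (1 = lc i ∧ n = n' ∧ (5 : ℤ) = 4) by norm_num)]
    by_cases hn : n' = n
    · subst hn
      by_cases hi : i = 2 ^ lg i
      · rw [lc_pow hi, if_pos (show (1 : ℤ) = 1 ∧ n' = n' ∧ (4 : ℤ) = 4 from ⟨rfl, rfl, rfl⟩),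
          if_neg (show ¬ ((1 : ℤ) = 3 ∧ n' = n') by norm_num)]
        by_cases hlt : i < 2 ^ (a + 1)
        · have h5 : lg i ≤ a := (pow_lt_iff hi).1 hlt
          have h7 : i ≤ 2 ^ a := by
            rw [hi]
            exact Nat.pow_le_pow_right (by norm_num) h5
          rw [if_pos (show slot n' i ≤ slot n' (2 ^ a) from slot_le h7),
            if_pos (show n' = n' ∧ i < 2 ^ (a + 1) from ⟨rfl, hlt⟩)]
          push_cast
          ring
        · have h5 : ¬ lg i ≤ a := fun h => hlt ((pow_lt_iff hi).2 h)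
          have h7 : 2 ^ a < i := by
            rw [hi]
            exact Nat.pow_lt_pow_right (by norm_num) (by omega)
          have h8 := slot_lt (n := n') h7
          rw [if_neg (show ¬ slot n' i ≤ slot n' (2 ^ a) by omega),
            if_neg (show ¬ (n' = n' ∧ i < 2 ^ (a + 1)) from fun h => hlt h.2)]
          push_cast
          ring
      · rw [lc_npow hi, if_neg (show ¬ ((1 : ℤ) = 3 ∧ n' = n' ∧ (4 : ℤ) = 4) by norm_num),
          if_pos (show (3 : ℤ) = 3 ∧ n' = n' from ⟨rfl, rfl⟩)]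
        by_cases hlt : i < 2 ^ (a + 1)
        · rw [if_pos (show slot n' i ≤ slot n' (2 ^ (a + 1) - 1) from slot_le (by omega)),
            if_pos (show n' = n' ∧ i < 2 ^ (a + 1) from ⟨rfl, hlt⟩)]
          push_cast
          ring
        · have h8 := slot_lt (n := n') (show 2 ^ (a + 1) - 1 < i by
            have : 1 ≤ 2 ^ (a + 1) := Nat.one_le_two_pow
            omega)
          rw [if_neg (show ¬ slot n' i ≤ slot n' (2 ^ (a + 1) - 1) by omega),
            if_neg (show ¬ (n' = n' ∧ i < 2 ^ (a + 1)) from fun h => hlt h.2)]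
          push_cast
          ring
    · rw [if_neg (show ¬ (1 = lc i ∧ n = n' ∧ (4 : ℤ) = 4) from fun h => hn h.2.1.symm),
        if_neg (show ¬ (lc i = 3 ∧ n = n') from fun h => hn h.2.symm),
        if_neg (show ¬ (n' = n ∧ i < 2 ^ (a + 1)) from fun h => hn h.1)]
      push_cast
      ring
  · intro n' i t κ s hV hi1 hg hκ
    obtain ⟨l61, l62, hc'⟩ := l6 n' i t κ s hκ
    have hjj := jj_cases s
    have hVG := fun r => VG_pipe (s := s) h1 h3 h4 P hV hi1 hg hκ r
    have i1 : ∀ e : ℤ, 0 ≤ e → e < 6 → ind (lr 1 n e) (pp n' i t κ s) =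
        if 1 = lc i ∧ n = n' ∧ e = 2 * rho i + jj s then 1 else 0 := fun e e0 e1 =>
      ind_lr h2 h6 (Or.inl rfl) hc' ⟨e0, e1⟩ ⟨by omega, by omega⟩ l61
    have i2 := ind_ing (n := n) h2 h6 hc' l61
    unfold Pos.MM
    rw [i1 _ (by omega) (by omega), i1 _ (by omega) (by omega), i1 _ (by omega) (by omega),
      i1 _ (by omega) (by omega), i1 4 (by norm_num) (by norm_num), i1 5 (by norm_num)
      (by norm_num), i2]
    rw [if_neg (show ¬ (1 = lc i ∧ n = n' ∧ 4 = 2 * rho i + jj s) by omega),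
      if_neg (show ¬ (1 = lc i ∧ n = n' ∧ 5 = 2 * rho i + jj s) by omega)]
    by_cases hn : n' = n
    · subst hn
      by_cases hi : i = 2 ^ lg i
      · rw [lc_pow hi, if_neg (show ¬ ((1 : ℤ) = 3 ∧ n' = n') by norm_num), rho_pow hi]
        by_cases hpar : (lg i : ℤ) % 2 = (a : ℤ) % 2
        · have e0 : (if (1 : ℤ) = 1 ∧ n' = n' ∧ 2 * (((a : ℤ) + 1) % 2) =
              2 * ((lg i : ℤ) % 2) + jj s then (1 : ℂ) else 0) = 0 := if_neg (by omega)
          have e1 : (if (1 : ℤ) = 1 ∧ n' = n' ∧ 2 * (((a : ℤ) + 1) % 2) + 1 =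
              2 * ((lg i : ℤ) % 2) + jj s then (1 : ℂ) else 0) = 0 := if_neg (by omega)
          have e2 : (if (1 : ℤ) = 1 ∧ n' = n' ∧ 2 * ((a : ℤ) % 2) =
              2 * ((lg i : ℤ) % 2) + jj s then (1 : ℂ) else 0) +
              (if (1 : ℤ) = 1 ∧ n' = n' ∧ 2 * ((a : ℤ) % 2) + 1 =
              2 * ((lg i : ℤ) % 2) + jj s then (1 : ℂ) else 0) = 1 := by
            rcases hjj with h | h
            · rw [if_pos (by omega), if_neg (by omega), add_zero]
            · rw [if_neg (by omega), if_pos (by omega), zero_add]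
          rw [e0, e1, e2]
          by_cases hlt : i < 2 ^ (a + 1)
          · have h5 : lg i ≤ a := (pow_lt_iff hi).1 hlt
            have h7 : i ≤ 2 ^ a := by
              rw [hi]
              exact Nat.pow_le_pow_right (by norm_num) h5
            rw [(hVG (slot n' (2 ^ a))).1 (slot_le h7), if_pos (show n' = n' ∧ i < 2 ^ (a + 1) from ⟨rfl, hlt⟩)]
            push_cast
            ring
          · have h5 : ¬ lg i ≤ a := fun h => hlt ((pow_lt_iff hi).2 h)
            have h9 : a + 2 ≤ lg i := by omega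
            have h10 : 2 ^ a < 2 ^ (lg i - 1) := Nat.pow_lt_pow_right (by norm_num) (by omega)
            have h11 : ps n' i = slot n' (2 ^ (lg i - 1)) := by
              conv_lhs => rw [hi]
              exact ps_pow (hna.trans h10)
            have h12 := slot_lt (n := n') h10
            rw [(hVG (slot n' (2 ^ a))).2 (by rw [h11]; exact h12), if_neg (show ¬ (n' = n' ∧ i < 2 ^ (a + 1)) from fun h => hlt h.2)]
            push_cast
            ring
        · have e0 : (if (1 : ℤ) = 1 ∧ n' = n' ∧ 2 * ((a : ℤ) % 2) =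
              2 * ((lg i : ℤ) % 2) + jj s then (1 : ℂ) else 0) = 0 := if_neg (by omega)
          have e1 : (if (1 : ℤ) = 1 ∧ n' = n' ∧ 2 * ((a : ℤ) % 2) + 1 =
              2 * ((lg i : ℤ) % 2) + jj s then (1 : ℂ) else 0) = 0 := if_neg (by omega)
          have e2 : (if (1 : ℤ) = 1 ∧ n' = n' ∧ 2 * (((a : ℤ) + 1) % 2) =
              2 * ((lg i : ℤ) % 2) + jj s then (1 : ℂ) else 0) +
              (if (1 : ℤ) = 1 ∧ n' = n' ∧ 2 * (((a : ℤ) + 1) % 2) + 1 =
              2 * ((lg i : ℤ) % 2) + jj s then (1 : ℂ) else 0) = 1 := by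
            rcases hjj with h | h
            · rw [if_pos (by omega), if_neg (by omega), add_zero]
            · rw [if_neg (by omega), if_pos (by omega), zero_add]
          rw [e0, e1, e2]
          by_cases hlt : i < 2 ^ (a + 1)
          · have h5 : lg i ≤ a := (pow_lt_iff hi).1 hlt
            have h6' : lg i ≠ a := fun h => hpar (by rw [h])
            have h7 : i < 2 ^ a := by
              rw [hi]
              exact Nat.pow_lt_pow_right (by norm_num) (by omega)
            have h12 := slot_lt (n := n') h7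
            rw [(hVG (slot n' (2 ^ a) - 1)).1 (show slot n' i ≤ slot n' (2 ^ a) - 1 by omega), if_pos (show n' = n' ∧ i < 2 ^ (a + 1) from ⟨rfl, hlt⟩)]
            push_cast
            ring
          · have h5 : ¬ lg i ≤ a := fun h => hlt ((pow_lt_iff hi).2 h)
            have h10 : 2 ^ a ≤ 2 ^ (lg i - 1) := Nat.pow_le_pow_right (by norm_num) (by omega)
            have h11 : ps n' i = slot n' (2 ^ (lg i - 1)) := by
              conv_lhs => rw [hi]
              exact ps_pow (lt_of_lt_of_le hna h10)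
            have h12 := slot_le (n := n') h10
            rw [(hVG (slot n' (2 ^ a) - 1)).2 (show slot n' (2 ^ a) - 1 < ps n' i by rw [h11]; omega),
              if_neg (show ¬ (n' = n' ∧ i < 2 ^ (a + 1)) from fun h => hlt h.2)]
            push_cast
            ring
      · rw [lc_npow hi, if_neg (by norm_num), if_neg (by norm_num), if_neg (by norm_num),
          if_neg (by norm_num), if_pos ⟨rfl, rfl⟩]
        by_cases hlt : i < 2 ^ (a + 1)
        · rw [(hVG (slot n' (2 ^ (a + 1) - 1))).1 (slot_le (show i ≤ 2 ^ (a + 1) - 1 by omega)), if_pos (show n' = n' ∧ i < 2 ^ (a + 1) from ⟨rfl, hlt⟩)]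
          push_cast
          ring
        · have h9 : i ≠ 2 ^ (a + 1) := by
            intro h
            apply hi
            have : lg i = a + 1 := by
              rw [h]
              exact Nat.log_pow (by norm_num) (a + 1)
            rw [this, h]
          have h13 : 1 ≤ 2 ^ (a + 1) := Nat.one_le_two_pow
          have h12 := slot_lt (n := n') (show 2 ^ (a + 1) - 1 < i - 1 by omega)
          rw [(hVG (slot n' (2 ^ (a + 1) - 1))).2 (by rw [ps_npow hi]; exact h12), if_neg (show ¬ (n' = n' ∧ i < 2 ^ (a + 1)) from fun h => hlt h.2)]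
          push_cast
          ring
    · have h0 : ∀ e : ℤ, (if 1 = lc i ∧ n = n' ∧ e = 2 * rho i + jj s then (1 : ℂ) else 0) = 0 :=
        fun e => if_neg fun h => hn h.2.1.symm
      rw [h0, h0, h0, h0, if_neg (fun h => hn h.2.symm), if_neg fun h => hn h.1]
      push_cast
      ring
  · intro z hz
    obtain ⟨v1, v2, -⟩ := h1 d P
    have key : ∀ r, r ≤ slot n (2 ^ (a + 1) - 1) → P.VG r z = 0 := by
      intro r hr
      apply v2
      have : (P.X (r + 1) : ℤ) ≤ P.X (slot n (2 ^ (a + 1) - 1) + 1) := by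
        exact_mod_cast X_mono h4 P (by omega)
      have := abs_nonneg z
      linarith
    have hle : slot n (2 ^ a) ≤ slot n (2 ^ (a + 1) - 1) := by
      apply slot_le
      have : 2 ^ (a + 1) = 2 * 2 ^ a := by ring
      omega
    unfold Pos.MM
    rw [key _ hle, key _ (by omega), key _ le_rfl]
    push_cast
    ring

end Pool.Agent.H93.GT
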