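import Pool.Agent.H93.GT.Targets

/-! Module GNG: no synthesis for trees with a branch. -/

set_option autoImplicit false

open Pool.Agent.H93.GT Pool.Agent.H87.Synth Pool.Agent.H85.SC Finset
open Pool.Agent.H93.ET (sg jj iE iA T_KKL T_CUT T_BRK T_SER T_CRI)

namespace Pool.Agent.H93.GT

theorem gng (h1 : T_GTH) (h2 : T_GFU) (h3 : Pool.Agent.H93.GT.T_GSM) (h4 : T_GPC) (h5 : T_GRL)
    (h6 : T_GDJ) (h7 : T_CRI) : T_GNG := by
  intro d P S hS hBr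
  obtain ⟨v, hv0, hvS, hv⟩ := hBr
  choose a ha using hv
  have hbr : IsBr S v a := ⟨hv0, hvS, ha⟩
  obtain ⟨f, hf⟩ := h1 d P S v a hbr
  obtain ⟨Λ, hG, hΛ⟩ := h2 d P S hS
  obtain ⟨hS1, hS2⟩ := h3 d P S hS Λ hG
  have hC := h4 d P S hS v a hbr f hf
  obtain ⟨r, hr, hns⟩ := h7 GC (P.cls S) ((h6 d P).1 S) f Λ hC hS1 hS2
    (by rw [hΛ v a hbr f hf]; norm_num)
  have e : P.grel S = r := by
    ext m n
    rw [hr m n]
    exact (h5 d P S).1 m n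
  rw [e]
  exact hns

end Pool.Agent.H93.GT
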