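import Pool.Agent.H93.GT.Targets
import Pool.Agent.H93.ET.PTG

/-! Module GPB: the functional of the pipes. -/

set_option autoImplicit false

open Pool.Agent.H93.GT Pool.Agent.H87.Synth Pool.Agent.H85.SC Finset
open Pool.Agent.H93.ET (sg jj iE iA T_KKL T_CUT T_BRK T_SER T_CRI)

namespace Pool.Agent.H93.GT

section

variable {d : ℕ → ℝ} (P : Pos d)

/-- the weights of a pipe -/
noncomputable def cB (n i : ℕ) (x : ℤ × ℤ × Bool) : ℂ :=
  (1 - 2 * (x.2.1 : ℂ)) * (sg x.2.2 : ℂ) * (P.g n i x.1 : ℂ)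

theorem mem_IX {n i : ℕ} (hV : Valid n i) (hi1 : i ≠ 1) {x : ℤ × ℤ × Bool}
    (h : P.g n i x.1 ≠ 0) (hi : x.2.1 = 0 ∨ x.2.1 = 1) : x ∈ P.IX n i := by
  obtain ⟨-, h2⟩ := P.gsupp n i x.1 hV hi1 h
  unfold Pos.IX
  rw [Finset.mem_product, Finset.mem_product, Finset.mem_filter, Finset.mem_Ioo]
  refine ⟨⟨?_, h⟩, ?_, Finset.mem_univ _⟩
  · have := abs_lt.1 h2
    constructor <;> linarith [this.1, this.2]
  · simpa using hi

theorem IX_i {n i : ℕ} {x : ℤ × ℤ × Bool} (h : x ∈ P.IX n i) :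
    P.g n i x.1 ≠ 0 ∧ (x.2.1 = 0 ∨ x.2.1 = 1) := by
  unfold Pos.IX at h
  rw [Finset.mem_product, Finset.mem_product, Finset.mem_filter] at h
  exact ⟨h.1.2, by simpa using h.2.1⟩

theorem sum_IX (n i : ℕ) (F : ℤ × ℤ × Bool → ℂ) :
    ∑ x ∈ P.IX n i, F x = ∑ t ∈ (Ioo (-(2 * (P.b n i (P.N n i) : ℤ)))
      (2 * (P.b n i (P.N n i) : ℤ))).filter (fun t => P.g n i t ≠ 0),
        ((F (t, 0, true) + F (t, 0, false)) + (F (t, 1, true) + F (t, 1, false))) := by
  unfold Pos.IX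
  rw [Finset.sum_product]
  refine Finset.sum_congr rfl fun t _ => ?_
  rw [Finset.sum_product, Finset.sum_pair (by norm_num), Fintype.sum_bool, Fintype.sum_bool]

theorem norm_B {n i : ℕ} (hV : Valid n i) (hi1 : i ≠ 1) (w : ℂ) (hw : ‖w‖ = 1) :
    ‖∑ x ∈ P.IX n i, cB P n i x * w ^ pp n i x.1 x.2.1 x.2.2‖ ≤ 4 * (1 / 2) ^ slot n i := by
  have hw0 : w ≠ 0 := by
    rintro rfl
    simp at hw
  set M : ℤ := (Mo n : ℤ) with hM
  set c : ℤ := cc n + lc i * 4 ^ Nat.size n + M * (2 * rho i) with hc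
  have hpp : ∀ t κ s, pp n i t κ s = 12 * M * t + c + 6 * M * κ + M * jj s := by
    intro t κ s
    unfold pp
    rw [← hM, hc]
    ring
  have e1 : ∑ x ∈ P.IX n i, cB P n i x * w ^ pp n i x.1 x.2.1 x.2.2 =
      (∑ t ∈ Ioo (-(2 * (P.b n i (P.N n i) : ℤ))) (2 * (P.b n i (P.N n i) : ℤ)),
        (P.g n i t : ℂ) * (w ^ (12 * M)) ^ t) *
          (w ^ c * ((1 - w ^ (6 * M)) * (1 - w ^ M))) := by
    rw [sum_IX, Finset.sum_mul]
    have e0 : ∀ t, (cB P n i (t, 0, true) * w ^ pp n i t 0 true +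
        cB P n i (t, 0, false) * w ^ pp n i t 0 false) +
        (cB P n i (t, 1, true) * w ^ pp n i t 1 true +
        cB P n i (t, 1, false) * w ^ pp n i t 1 false) =
        (P.g n i t : ℂ) * (w ^ (12 * M)) ^ t * (w ^ c * ((1 - w ^ (6 * M)) * (1 - w ^ M))) := by
      intro t
      simp only [cB, hpp, jj, sg, if_true, Bool.false_eq_true, if_false]
      have a0 : (w ^ (12 * M)) ^ t = w ^ (12 * M * t) := (zpow_mul w (12 * M) t).symm
      have a1 : w ^ (12 * M * t + c + 6 * M * 0 + M * 0) = w ^ (12 * M * t) * w ^ c := by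
        rw [← zpow_add₀ hw0]; congr 1; ring
      have a2 : w ^ (12 * M * t + c + 6 * M * 0 + M * 1) =
          w ^ (12 * M * t) * w ^ c * w ^ M := by
        rw [← zpow_add₀ hw0, ← zpow_add₀ hw0]; congr 1; ring
      have a3 : w ^ (12 * M * t + c + 6 * M * 1 + M * 0) =
          w ^ (12 * M * t) * w ^ c * w ^ (6 * M) := by
        rw [← zpow_add₀ hw0, ← zpow_add₀ hw0]; congr 1; ring
      have a4 : w ^ (12 * M * t + c + 6 * M * 1 + M * 1) =
          w ^ (12 * M * t) * w ^ c * w ^ (6 * M) * w ^ M := by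
        rw [← zpow_add₀ hw0, ← zpow_add₀ hw0, ← zpow_add₀ hw0]; congr 1; ring
      rw [a0, a1, a2, a3, a4]
      push_cast
      ring
    rw [Finset.sum_congr rfl fun t _ => e0 t]
    refine Finset.sum_filter_of_ne fun t _ h => ?_
    intro h0
    apply h
    rw [h0]
    simp
  rw [e1, norm_mul, norm_mul, norm_mul, norm_zpow, hw, one_zpow, one_mul]
  have b1 := P.gnorm n i (w ^ (12 * M)) hV hi1 (by rw [norm_zpow, hw, one_zpow])
  have b2 : ‖1 - w ^ (6 * M)‖ ≤ 2 := by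
    refine (norm_sub_le _ _).trans ?_
    rw [norm_one, norm_zpow, hw, one_zpow]; norm_num
  have b3 : ‖1 - w ^ M‖ ≤ 2 := by
    refine (norm_sub_le _ _).trans ?_
    rw [norm_one, norm_zpow, hw, one_zpow]; norm_num
  calc _ ≤ (1 / 2 : ℝ) ^ slot n i * (2 * 2) :=
        mul_le_mul b1 (mul_le_mul b2 b3 (norm_nonneg _) (by norm_num)) (by positivity)
          (by positivity)
    _ = 4 * (1 / 2) ^ slot n i := by ring

end

theorem gpb (h1 : T_SER) (h2 : T_GUQ) (h3 : T_SLT) : T_GPB := by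
  classical
  intro d P S
  obtain ⟨huniq, -⟩ := h2 d P
  obtain ⟨hslt, -⟩ := h3
  let Q : ℕ → ℕ × ℕ → Prop := fun r p => p.1 ∈ S ∧ Valid p.1 p.2 ∧ p.2 ≠ 1 ∧ slot p.1 p.2 = r
  have hQ : ∀ r p q, Q r p → Q r q → p = q := by
    intro r p q hp hq
    obtain ⟨e1, e2⟩ := hslt _ _ _ _ hp.2.1 hq.2.1 (hp.2.2.2.trans hq.2.2.2.symm)
    exact Prod.ext e1 e2
  -- the terms
  let Tm : (ℤ → ℂ) → ℕ → ℂ := fun φ r =>
    if h : ∃ p, Q r p then ∑ x ∈ P.IX h.choose.1 h.choose.2, cB P h.choose.1 h.choose.2 x *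
      φ (pp h.choose.1 h.choose.2 x.1 x.2.1 x.2.2) else 0
  have hTm : ∀ φ n i, n ∈ S → Valid n i → i ≠ 1 → Tm φ (slot n i) =
      ∑ x ∈ P.IX n i, cB P n i x * φ (pp n i x.1 x.2.1 x.2.2) := by
    intro φ n i hn hV hi
    have hq : Q (slot n i) (n, i) := ⟨hn, hV, hi, rfl⟩
    have hex : ∃ p, Q (slot n i) p := ⟨_, hq⟩
    simp only [Tm]
    rw [dif_pos hex, hQ _ _ _ hex.choose_spec hq]
  have hTm0 : ∀ φ r, (¬ ∃ p, Q r p) → Tm φ r = 0 := by
    intro φ r h
    simp only [Tm]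
    rw [dif_neg h]
  obtain ⟨Λ, hΛ0⟩ := h1
    (fun r => if h : ∃ p, Q r p then (P.IX h.choose.1 h.choose.2).image
      (fun x => pp h.choose.1 h.choose.2 x.1 x.2.1 x.2.2) else ∅)
    (fun r z => if h : ∃ p, Q r p then
      ∑ x ∈ (P.IX h.choose.1 h.choose.2).filter
        (fun x => pp h.choose.1 h.choose.2 x.1 x.2.1 x.2.2 = z), cB P h.choose.1 h.choose.2 x
      else 0)
    (fun k => 4 * (1 / 2) ^ k)
    ((summable_geometric_of_lt_one (by norm_num) (by norm_num)).mul_left 4)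
    (fun r w hw => by
      by_cases h : ∃ p, Q r p
      · simp only [dif_pos h]
        rw [Pool.Agent.H93.ET.regroup (P.IX h.choose.1 h.choose.2)
          (fun x => pp h.choose.1 h.choose.2 x.1 x.2.1 x.2.2) (cB P h.choose.1 h.choose.2)
          (fun n => w ^ n)]
        have hs := h.choose_spec
        have := norm_B P hs.2.1 hs.2.2.1 w hw
        rw [hs.2.2.2] at this
        exact this
      · simp only [dif_neg h]
        rw [Finset.sum_empty, norm_zero]
        positivity)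
  have hΛ : ∀ f : L1, HasSum (Tm fun z => coeff f z) (Λ f) := by
    intro f
    have h := hΛ0 f
    have e : (fun r => ∑ z ∈ (if h : ∃ p, Q r p then (P.IX h.choose.1 h.choose.2).image
        (fun x => pp h.choose.1 h.choose.2 x.1 x.2.1 x.2.2) else ∅),
        (if h : ∃ p, Q r p then
          ∑ x ∈ (P.IX h.choose.1 h.choose.2).filter
            (fun x => pp h.choose.1 h.choose.2 x.1 x.2.1 x.2.2 = z),
              cB P h.choose.1 h.choose.2 x
        else 0) * coeff f z) = Tm fun z => coeff f z := by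
      funext r
      by_cases h : ∃ p, Q r p
      · simp only [dif_pos h, Tm]
        rw [Pool.Agent.H93.ET.regroup (P.IX h.choose.1 h.choose.2)
          (fun x => pp h.choose.1 h.choose.2 x.1 x.2.1 x.2.2) (cB P h.choose.1 h.choose.2)
          (fun n => coeff f n)]
      · simp only [dif_neg h, Tm]
        rw [Finset.sum_empty]
    rw [e] at h
    exact h
  refine ⟨Λ, ?_, ?_, ?_⟩
  · intro n i t κ s hn hV hi hg hκ
    refine (hΛ _).unique ?_
    have key : ∀ n' i' x, n' ∈ S → Valid n' i' → i' ≠ 1 → x ∈ P.IX n' i' →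
        ¬ (n' = n ∧ i' = i ∧ x = (t, κ, s)) →
        cB P n' i' x * coeff (ex (pp n i t κ s)) (pp n' i' x.1 x.2.1 x.2.2) = 0 := by
      intro n' i' x hn' hV' hi' hx hne
      rw [coeff_ex, if_neg, mul_zero]
      intro he
      obtain ⟨hg', hκ'⟩ := IX_i P hx
      obtain ⟨e1, e2, e3, e4, e5⟩ := huniq _ _ _ _ _ _ _ _ _ _ hV hi hg hκ hV' hi' hg' hκ' he
      refine hne ⟨e1.symm, e2.symm, ?_⟩
      ext
      · exact e3.symm
      · exact e4.symm
      · simp only; rw [e5]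
    have e1 := hasSum_single (f := Tm fun z => coeff (ex (pp n i t κ s)) z) (slot n i) (by
      intro r hr
      by_cases h : ∃ p, Q r p
      · obtain ⟨p, hp⟩ := h
        rw [← hp.2.2.2, hTm _ _ _ hp.1 hp.2.1 hp.2.2.1]
        refine Finset.sum_eq_zero fun x hx => key _ _ x hp.1 hp.2.1 hp.2.2.1 hx fun h => hr ?_
        rw [← hp.2.2.2, h.1, h.2.1]
      · exact hTm0 _ _ h)
    have e2 : Tm (fun z => coeff (ex (pp n i t κ s)) z) (slot n i) = cB P n i (t, κ, s) := by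
      rw [hTm _ _ _ hn hV hi, Finset.sum_eq_single (t, κ, s)]
      · rw [coeff_ex, if_pos rfl, mul_one]
      · intro x hx hne
        exact key n i x hn hV hi hx fun h => hne h.2.2
      · intro h
        exact absurd (mem_IX P hV hi (x := (t, κ, s)) hg hκ) h
    rw [e2] at e1
    exact e1
  · intro z hz
    refine (hΛ _).unique ?_
    have : (Tm fun y => coeff (ex z) y) = fun _ => 0 := by
      funext r
      by_cases h : ∃ p, Q r p
      · obtain ⟨p, hp⟩ := h
        rw [← hp.2.2.2, hTm _ _ _ hp.1 hp.2.1 hp.2.2.1]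
        refine Finset.sum_eq_zero fun x hx => ?_
        obtain ⟨hg', hκ'⟩ := IX_i P hx
        rw [coeff_ex, if_neg (hz _ _ _ _ _ hp.1 hp.2.1 hp.2.2.1 hg' hκ'), mul_zero]
      · exact hTm0 _ _ h
    rw [this]
    exact hasSum_zero
  · rintro v a f ⟨-, hf⟩
    refine (hΛ f).unique ?_
    have : (Tm fun y => coeff f y) = fun _ => 0 := by
      funext r
      by_cases h : ∃ p, Q r p
      · obtain ⟨p, hp⟩ := h
        rw [← hp.2.2.2, hTm _ _ _ hp.1 hp.2.1 hp.2.2.1]
        have hx : ∀ x ∈ P.IX p.1 p.2, cB P p.1 p.2 x * coeff f (pp p.1 p.2 x.1 x.2.1 x.2.2) =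
            (1 - 2 * (x.2.1 : ℂ)) * (P.g p.1 p.2 x.1 : ℂ) * qv v a p.1 p.2 := by
          intro x hx
          obtain ⟨hg', hκ'⟩ := IX_i P hx
          rw [hf p.1 p.2 _ _ _ hp.2.1 hp.2.2.1 hg' hκ']
          unfold cB
          have := Pool.Agent.H93.ET.sg_mul_self x.2.2
          linear_combination ((1 - 2 * (x.2.1 : ℂ)) * (P.g p.1 p.2 x.1 : ℂ) *
            qv v a p.1 p.2) * this
        rw [Finset.sum_congr rfl hx, sum_IX]
        refine Finset.sum_eq_zero fun t _ => ?_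
        push_cast
        ring
      · exact hTm0 _ _ h
    rw [this]
    exact hasSum_zero

end Pool.Agent.H93.GT
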