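import Pool.Agent.H93.GT.Targets

/-! Module WGR: growth and crossing numbers. -/

set_option autoImplicit false

open Pool.Agent.H93.GT Pool.Agent.H87.Synth Pool.Agent.H85.SC Finset
open Pool.Agent.H93.ET (sg jj iE iA T_KKL T_CUT T_BRK T_SER T_CRI)

namespace Pool.Agent.H93.GT

theorem wgr : T_WGR := by
  classical
  intro r d hpos hmono hG k F hF
  have hmn : ∀ n, ∃ m, r n m ∧ m.natAbs = mn r n := by
    intro n
    have hne : {j | ∃ m, r n m ∧ m.natAbs = j}.Nonempty := ⟨n.natAbs, n, r.refl n, rfl⟩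
    exact Nat.sInf_mem hne
  have hle : ∀ n, mn r n ≤ n.natAbs := fun n => Nat.sInf_le ⟨n, r.refl n, rfl⟩
  have hd : ∀ n ∈ F, (n.natAbs : ℝ) - mn r n ≤ d k := by
    intro n hn
    obtain ⟨m, hm, hm2⟩ := hmn n
    have h1 := hG n m hm
    rw [hm2, min_eq_right (hle n)] at h1
    exact (le_abs_self _).trans (h1.trans (hmono (hF n hn).2.1))
  set D := ⌊d k⌋₊ with hD
  have hsub : F ⊆ (Finset.Ioc k (k + D)).image (fun k : ℕ => (k : ℤ)) ∪
      (Finset.Ioc k (k + D)).image (fun k : ℕ => -(k : ℤ)) := by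
    intro n hn
    obtain ⟨-, h1, h2⟩ := hF n hn
    have h3 := hd n hn
    have h5 : ((n.natAbs - k : ℕ) : ℝ) ≤ d k := by
      rw [Nat.cast_sub h2.le]
      have : (mn r n : ℝ) ≤ k := by exact_mod_cast h1
      linarith
    have h6 : n.natAbs - k ≤ D := Nat.le_floor h5
    have h7 : n.natAbs ∈ Finset.Ioc k (k + D) := by
      rw [Finset.mem_Ioc]; omega
    rw [Finset.mem_union, Finset.mem_image, Finset.mem_image]
    rcases le_or_gt 0 n with hn0 | hn0
    · exact Or.inl ⟨n.natAbs, h7, by omega⟩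
    · exact Or.inr ⟨n.natAbs, h7, by omega⟩
  have hcard : (F.card : ℝ) ≤ 2 * d k := by
    have h1 := (Finset.card_le_card hsub).trans (Finset.card_union_le _ _)
    have h2 : ((Finset.Ioc k (k + D)).image (fun k : ℕ => (k : ℤ))).card ≤ D := by
      refine Finset.card_image_le.trans ?_
      rw [Nat.card_Ioc]; omega
    have h3 : ((Finset.Ioc k (k + D)).image (fun k : ℕ => -(k : ℤ))).card ≤ D := by
      refine Finset.card_image_le.trans ?_
      rw [Nat.card_Ioc]; omega
    have h4 : F.card ≤ 2 * D := by omega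
    have h5 : (D : ℝ) ≤ d k := Nat.floor_le (hpos k).le
    calc (F.card : ℝ) ≤ ((2 * D : ℕ) : ℝ) := by exact_mod_cast h4
      _ ≤ 2 * d k := by push_cast; linarith
  calc ∑ n ∈ F, ((n.natAbs : ℝ) - mn r n) ≤ ∑ _n ∈ F, d k := Finset.sum_le_sum hd
    _ = F.card * d k := by rw [Finset.sum_const, nsmul_eq_mul]
    _ ≤ 2 * d k * d k := mul_le_mul_of_nonneg_right hcard (hpos k).le
    _ = 2 * d k ^ 2 := by ring

end Pool.Agent.H93.GT
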