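import Pool.Agent.H93.GT.GFU
import Pool.Agent.H93.GT.GMV
import Pool.Agent.H93.GT.GNG
import Pool.Agent.H93.GT.WGR
import Pool.Agent.H59.GT.GAM
import Pool.Agent.H19.GT.GCN
import Pool.Agent.H41.GT.GCO
import Pool.Agent.H38.GT.GDC
import Pool.Agent.H6.GT.GDI
import Pool.Agent.H59.GT.GDJ
import Pool.Agent.H40.GT.GFIN
import Pool.Agent.H75.GT.GFL
import Pool.Agent.H98.GT.GFM
import Pool.Agent.H85.GT.GFP
import Pool.Agent.H48.GT.GIV
import Pool.Agent.H70.GT.GKS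
import Pool.Agent.H89.GT.GND
import Pool.Agent.H36.GT.GPC
import Pool.Agent.H80.GT.GPE
import Pool.Agent.H72.GT.GPI
import Pool.Agent.H75.GT.GPO
import Pool.Agent.H36.GT.GPR
import Pool.Agent.H41.GT.GPV
import Pool.Agent.H19.GT.GRL
import Pool.Agent.H19.GT.GRO
import Pool.Agent.H94.GT.GSG
import Pool.Agent.H37.GT.GSM
import Pool.Agent.H94.GT.GST
import Pool.Agent.H36.GT.GSU
import Pool.Agent.H41.GT.GSV
import Pool.Agent.H35.GT.GSZ
import Pool.Agent.H81.GT.GTL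
import Pool.Agent.H40.GT.GTT
import Pool.Agent.H42.GT.GUQ
import Pool.Agent.H80.GT.GVL
import Pool.Agent.H37.GT.LNS
import Pool.Agent.H39.GT.PEX
import Pool.Agent.H14.GT.PIP
import Pool.Agent.H56.GT.PRE
import Pool.Agent.H14.GT.SGF
import Pool.Agent.H5.GT.WPO
import Pool.Agent.H1.GT.GAL
import Pool.Agent.H93.GT.GLK
import Pool.Agent.H48.GT.GLO
import Pool.Agent.H93.GT.GPB
import Pool.Agent.H42.GT.GSX
import Pool.Agent.H61.GT.GTH
import Pool.Agent.H93.GT.ZON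
import Pool.Agent.H93.SY.NEG2
import Pool.Agent.H93.SY.POS2
import Pool.Agent.H93.ET.Main
import Pool.Agent.H4.SC.RED
import Pool.Agent.H35.SC.COD

/-!
# The dichotomy for the synthesis property: assembly
-/

set_option autoImplicit false

namespace Pool.Agent.H93.GT

open Pool.Agent.H87.Synth Pool.Agent.H85.SC

theorem gfin_all : T_GFIN := by
  -- old targets
  have SLT : T_SLT := Pool.Agent.H19.SC.SLT_proof
  have CCA : T_CCA := Pool.Agent.H24.SC.cca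
  have APD : T_APD := Pool.Agent.H37.SC.apd CCA
  have EAP : T_EAP := Pool.Agent.H29.SC.eap
  have ECH : T_ECH := Pool.Agent.H29.SC.ech
  have EML : T_EML := Pool.Agent.H29.SC.eml
  have EMB : T_EMB := Pool.Agent.H65.SC.emb
  have MUL : T_MUL := Pool.Agent.H4.SC.mul
  have APM : T_APM := Pool.Agent.H65.SC.apm EAP ECH EMB MUL
  have LIM : T_LIM := Pool.Agent.H4.SC.lim
  have KLM : T_KLM := Pool.Agent.H4.SC.klm APM MUL
  have COD : T_COD := Pool.Agent.H35.SC.cod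
  have RED : T_RED := Pool.Agent.H4.SC.red
  have KKL : Pool.Agent.H93.ET.T_KKL :=
    Pool.Agent.H93.ET.kkl Pool.Agent.H79.ET.phi Pool.Agent.H70.ET.ort
  have CUT : Pool.Agent.H93.ET.T_CUT := Pool.Agent.H32.ET.cut
  have BRK : Pool.Agent.H93.ET.T_BRK := Pool.Agent.H79.ET.brk
  have SER : Pool.Agent.H93.ET.T_SER := Pool.Agent.H23.ET.ser
  have CRI : Pool.Agent.H93.ET.T_CRI := Pool.Agent.H23.ET.cri
  -- A
  have SGF : T_SGF := Pool.Agent.H14.GT.sgf KKL CUT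
  have PIP : T_PIP := Pool.Agent.H14.GT.pip SGF BRK
  have PRE : T_PRE := Pool.Agent.H56.GT.pre
  have PEX : T_PEX := Pool.Agent.H39.GT.pex PIP PRE
  -- B
  have GSZ : T_GSZ := Pool.Agent.H35.GT.gsz PRE
  have LNS : T_LNS := Pool.Agent.H37.GT.lns CCA
  have ZON : T_ZON := zon GSZ LNS
  have GUQ : T_GUQ := Pool.Agent.H42.GT.guq GSZ LNS ZON PRE SLT APD
  have GCN : T_GCN := Pool.Agent.H19.GT.gcn GSZ
  have GSG : T_GSG := Pool.Agent.H94.GT.gsg PRE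
  have GDJ : T_GDJ := Pool.Agent.H59.GT.gdj GUQ GSG PRE LNS GSZ
  have GRL : T_GRL := Pool.Agent.H19.GT.grl GDJ
  have GDI : T_GDI := Pool.Agent.H6.GT.gdi ZON GSZ PRE GSG LNS
  have GLO : T_GLO := Pool.Agent.H48.GT.glo GRL GUQ GSG PRE GSZ
  have GCO : T_GCO := Pool.Agent.H41.GT.gco GLO
  have GIV : T_GIV := Pool.Agent.H48.GT.giv GSG GSZ
  have GSM : Pool.Agent.H93.GT.T_GSM := Pool.Agent.H37.GT.gsm GSG GCN GDJ GSZ PRE LNS
  have GPC : T_GPC := Pool.Agent.H36.GT.gpc GSG PRE GSZ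
  -- C
  have GAL : T_GAL := Pool.Agent.H1.GT.gal
  have GRO : T_GRO := Pool.Agent.H19.GT.gro GAL
  have GFP : T_GFP := Pool.Agent.H85.GT.gfp GRO
  have GFM : T_GFM := Pool.Agent.H98.GT.gfm GFP EAP ECH EML GCN GSZ SLT
  have GTT : T_GTT := Pool.Agent.H40.GT.gtt GFM GCN GSG
  have GPR : T_GPR := Pool.Agent.H36.GT.gpr GSG GCN SLT
  have GST : T_GST := Pool.Agent.H94.GT.gst GTT GPR GUQ LIM GSG
  have GPB : T_GPB := gpb SER GUQ SLT
  have GFU : T_GFU := gfu GST GPB GUQ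
  have GVL : T_GVL := Pool.Agent.H80.GT.gvl GSZ MUL
  have GAM : T_GAM := Pool.Agent.H59.GT.gam APM MUL
  have GPE : T_GPE := Pool.Agent.H80.GT.gpe GVL GAM MUL
  have GPV : T_GPV := Pool.Agent.H41.GT.gpv GVL LNS ZON GSZ PRE APD SLT
  have GTH : T_GTH := Pool.Agent.H61.GT.gth GPE GPV
  have GNG : T_GNG := gng GTH GFU GSM GPC GRL GDJ CRI
  -- D
  have GPI : T_GPI := Pool.Agent.H72.GT.gpi GUQ GDJ LNS GSZ GSG
  have GFL : T_GFL := Pool.Agent.H75.GT.gfl GSG GUQ PRE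
  have GTL : T_GTL := Pool.Agent.H81.GT.gtl GPI GFL GSG
  have GMV : T_GMV := gmv GVL LNS ZON GSZ APD
  have GSU : T_GSU := Pool.Agent.H36.GT.gsu GMV GIV GUQ ZON GSZ GSG SLT PRE
  have GSX : T_GSX := Pool.Agent.H42.GT.gsx GVL GIV ZON GSZ LNS APD SLT GSG GUQ
  have GND : T_GND := Pool.Agent.H89.GT.gnd GTL GSU GSX GVL GAM MUL GSZ LNS GMV
  have GSV : T_GSV := Pool.Agent.H41.GT.gsv GVL GSZ MUL
  have GKS : T_GKS := Pool.Agent.H70.GT.gks APD GSV KLM GAM MUL GIV LNS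
  have GLK : T_GLK := glk GND GKS GAM MUL
  have GPO : T_GPO := Pool.Agent.H75.GT.gpo GLK GRL GDJ
  -- E
  have WPO : T_WPO := Pool.Agent.H5.GT.wpo
  have WGR : T_WGR := wgr
  have GDC : T_GDC := Pool.Agent.H38.GT.gdc PEX GPO GNG GCO COD GDI GRL
  exact Pool.Agent.H40.GT.gfin WPO WGR GDC RED

end Pool.Agent.H93.GT
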