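import Pool.Agent.H44.GT.Defs

/-!
# Sections of flat bundles: derivatives almost everywhere, the space of sections
-/

set_option autoImplicit false

namespace Pool.Agent.H93.GTD

open MeasureTheory Pool.Agent.H44.DU
open scoped ENNReal

section conv

variable {s : Set ℂ}

/-- Almost every point of a convex compact set is an interior point. -/
lemma ae_int (hs : Convex ℝ s) (hc : IsCompact s) :
    ∀ᵐ z ∂(volume.restrict s), z ∈ interior s := by
  have h1 : ∀ᵐ z : ℂ, z ∉ frontier s := by
    rw [ae_iff]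
    simpa using hs.addHaar_frontier volume
  filter_upwards [ae_restrict_of_ae h1, ae_restrict_mem hc.isClosed.measurableSet] with z h2 h3
  by_contra h4
  exact h2 ⟨subset_closure h3, h4⟩

/-- Rademacher's theorem on a convex compact set. -/
lemma ae_diff (hs : Convex ℝ s) (hc : IsCompact s) {K : NNReal} {G : ℂ → ℂ}
    (hG : LipschitzOnWith K G s) :
    ∀ᵐ z ∂(volume.restrict s), DifferentiableAt ℝ G z ∧ ‖fderiv ℝ G z‖ ≤ K ∧
      z ∈ interior s := by
  filter_upwards [hG.ae_differentiableWithinAt (μ := volume) hc.isClosed.measurableSet,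
    ae_int hs hc] with z h1 h2
  have h3 : s ∈ nhds z := mem_interior_iff_mem_nhds.1 h2
  exact ⟨h1.differentiableAt h3, norm_fderiv_le_of_lipschitzOn ℝ h3 hG, h2⟩

lemma meas_fd (G : ℂ → ℂ) (e : ℂ) : Measurable fun z => fderiv ℝ G z e :=
  measurable_fderiv_apply_const ℝ G e

/-- The directional derivative is bounded almost everywhere. -/
lemma ae_bound (hs : Convex ℝ s) (hc : IsCompact s) {K : NNReal} {G : ℂ → ℂ}
    (hG : LipschitzOnWith K G s) (e : ℂ) :
    ∀ᵐ z ∂(volume.restrict s), ‖fderiv ℝ G z e‖ ≤ K * ‖e‖ := by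
  filter_upwards [ae_diff hs hc hG] with z hz
  exact (fderiv ℝ G z).le_of_opNorm_le hz.2.1 e

lemma fin_restrict (hc : IsCompact s) : IsFiniteMeasure (volume.restrict s) :=
  ⟨by simpa using hc.measure_lt_top⟩

/-- The directional derivative belongs to `L^p` for every `p`. -/
lemma memLp_fd (hs : Convex ℝ s) (hc : IsCompact s) {K : NNReal} {G : ℂ → ℂ}
    (hG : LipschitzOnWith K G s) (e : ℂ) (p : ℝ≥0∞) :
    MemLp (fun z => fderiv ℝ G z e) p (volume.restrict s) := by
  have := fin_restrict hc
  exact MemLp.of_bound (meas_fd G e).aestronglyMeasurable _ (ae_bound hs hc hG e)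

/-- A bounded measurable function times the directional derivative is integrable. -/
lemma int_mul_fd (hs : Convex ℝ s) (hc : IsCompact s) {K : NNReal} {G : ℂ → ℂ}
    (hG : LipschitzOnWith K G s) (e : ℂ) {b : ℂ → ℂ} (hb : Measurable b) {M : ℝ}
    (hM : ∀ z, ‖b z‖ ≤ M) :
    Integrable (fun z => b z * fderiv ℝ G z e) (volume.restrict s) := by
  have := fin_restrict hc
  refine Integrable.of_bound (hb.mul (meas_fd G e)).aestronglyMeasurable (M * (K * ‖e‖)) ?_
  filter_upwards [ae_bound hs hc hG e] with z hz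
  rw [norm_mul]
  exact mul_le_mul (hM z) hz (norm_nonneg _) ((norm_nonneg _).trans (hM z))

/-- The square of the norm of the directional derivative is integrable. -/
lemma int_sq_fd (hs : Convex ℝ s) (hc : IsCompact s) {K : NNReal} {G : ℂ → ℂ}
    (hG : LipschitzOnWith K G s) (e : ℂ) :
    Integrable (fun z => ‖fderiv ℝ G z e‖ ^ 2) (volume.restrict s) := by
  have h := (memLp_fd hs hc hG e 2).integrable_norm_rpow (by simp) (by simp)
  simpa using h

/-- The product of a directional derivative and a conjugate one is integrable. -/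
lemma int_conj_fd (hs : Convex ℝ s) (hc : IsCompact s) {K K' : NNReal} {G G' : ℂ → ℂ}
    (hG : LipschitzOnWith K G s) (hG' : LipschitzOnWith K' G' s) (e e' : ℂ) :
    Integrable (fun z => (starRingEnd ℂ) (fderiv ℝ G z e) * fderiv ℝ G' z e')
      (volume.restrict s) := by
  have := fin_restrict hc
  refine Integrable.of_bound ((Complex.continuous_conj.measurable.comp (meas_fd G e)).mul
    (meas_fd G' e')).aestronglyMeasurable (K * ‖e‖ * (K' * ‖e'‖)) ?_
  filter_upwards [ae_bound hs hc hG e, ae_bound hs hc hG' e'] with z hz hz'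
  simp only [norm_mul, RCLike.norm_conj]
  exact mul_le_mul hz hz' (norm_nonneg _) (by positivity)

/-- The derivative of a sum. -/
lemma fd_add (hs : Convex ℝ s) (hc : IsCompact s) {K K' : NNReal} {G G' : ℂ → ℂ}
    (hG : LipschitzOnWith K G s) (hG' : LipschitzOnWith K' G' s) :
    ∀ᵐ z ∂(volume.restrict s), fderiv ℝ (fun w => G w + G' w) z = fderiv ℝ G z + fderiv ℝ G' z := by
  filter_upwards [ae_diff hs hc hG, ae_diff hs hc hG'] with z hz hz'
  exact fderiv_fun_add hz.1 hz'.1

/-- The derivative of a difference. -/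
lemma fd_sub (hs : Convex ℝ s) (hc : IsCompact s) {K K' : NNReal} {G G' : ℂ → ℂ}
    (hG : LipschitzOnWith K G s) (hG' : LipschitzOnWith K' G' s) :
    ∀ᵐ z ∂(volume.restrict s), fderiv ℝ (fun w => G w - G' w) z = fderiv ℝ G z - fderiv ℝ G' z := by
  filter_upwards [ae_diff hs hc hG, ae_diff hs hc hG'] with z hz hz'
  exact fderiv_fun_sub hz.1 hz'.1

/-- The derivative of a multiple. -/
lemma fd_mul (hs : Convex ℝ s) (hc : IsCompact s) {K : NNReal} {G : ℂ → ℂ}
    (hG : LipschitzOnWith K G s) (c e : ℂ) :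
    ∀ᵐ z ∂(volume.restrict s), fderiv ℝ (fun w => c * G w) z e = c * fderiv ℝ G z e := by
  filter_upwards [ae_diff hs hc hG] with z hz
  have h := hz.1.hasFDerivAt.const_mul c
  rw [h.fderiv]
  simp

end conv

section tri

variable {n : ℕ} (S : Surf n)

lemma tri_compact (i : Fin n) : IsCompact (S.tri i) :=
  (Set.finite_range (S.v i)).isCompact_convexHull ℝ

lemma tri_convex (i : Fin n) : Convex ℝ (S.tri i) := convex_convexHull _ _

lemma tri_meas (i : Fin n) : MeasurableSet (S.tri i) := (tri_compact S i).isClosed.measurableSet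

lemma v_mem (i : Fin n) (k : Fin 3) : S.v i k ∈ S.tri i :=
  subset_convexHull ℝ _ (Set.mem_range_self k)

lemma seg_sub (s : Side n) : segment ℝ (S.P s) (S.Q s) ⊆ S.tri s.1 :=
  (tri_convex S s.1).segment_subset (v_mem S _ _) (v_mem S _ _)

end tri

section sec

variable {n : ℕ} {S : Surf n} {ζ : Side n → ℂ} {G G' : Fin n → ℂ → ℂ}

/-- The sum of two sections. -/
lemma sec_add (h : S.Sec ζ G) (h' : S.Sec ζ G') : S.Sec ζ (fun i z => G i z + G' i z) := by
  obtain ⟨K, hK⟩ := h.lip
  obtain ⟨K', hK'⟩ := h'.lip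
  refine ⟨⟨K + K', fun i => (hK i).add (hK' i)⟩, fun s z hz => ?_⟩
  simp only [h.glue s z hz, h'.glue s z hz]
  ring

/-- A multiple of a section. -/
lemma sec_mul (h : S.Sec ζ G) (c : ℂ) : S.Sec ζ (fun i z => c * G i z) := by
  obtain ⟨K, hK⟩ := h.lip
  refine ⟨⟨‖c‖₊ * K, fun i => ?_⟩, fun s z hz => ?_⟩
  · refine LipschitzOnWith.of_dist_le_mul fun x hx y hy => ?_
    rw [dist_eq_norm, ← mul_sub, norm_mul, NNReal.coe_mul, coe_nnnorm, mul_assoc]
    refine mul_le_mul_of_nonneg_left ?_ (norm_nonneg _)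
    rw [← dist_eq_norm]
    exact (hK i).dist_le_mul x hx y hy
  · simp only [h.glue s z hz]
    ring

lemma sec_zero : S.Sec ζ (fun _ _ => 0) :=
  ⟨⟨0, fun _ => (LipschitzWith.const (0 : ℂ)).lipschitzOnWith⟩, fun _ _ _ => by simp⟩

/-- The difference of two sections. -/
lemma sec_sub (h : S.Sec ζ G) (h' : S.Sec ζ G') : S.Sec ζ (fun i z => G i z - G' i z) := by
  have h1 := sec_add h (sec_mul h' (-1))
  have h2 : (fun (i : Fin n) (z : ℂ) => G i z + (-1) * G' i z) =
      fun i z => G i z - G' i z := by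
    funext i z
    ring
  rwa [h2] at h1

/-- The space of sections, as a submodule of all families of functions. -/
def secSub (S : Surf n) (ζ : Side n → ℂ) : Submodule ℂ (Fin n → ℂ → ℂ) where
  carrier := {G | S.Sec ζ G}
  add_mem' h h' := sec_add h h'
  zero_mem' := sec_zero
  smul_mem' c _ h := sec_mul h c

lemma mem_secSub : G ∈ secSub S ζ ↔ S.Sec ζ G := Iff.rfl

end sec

end Pool.Agent.H93.GTD
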