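import Pool.Agent.H93.GT.Defs
import Pool.Agent.H72.IllFounded

/-!
# The dichotomy for the synthesis property: targets
-/

namespace Pool.Agent.H93.GT

open MeasureTheory AddCircle Finset Filter Topology Pool.Agent.H87.Synth Pool.Agent.H85.SC
open Pool.Agent.H93.ET (sg jj iE iA T_KKL T_CUT T_BRK T_SER T_CRI)

/-! ## A. Pipes -/

/-- the segment lemma for finitely many windows -/
def T_SGF : Prop := ∀ S ε : ℝ, 0 < S → 0 < ε → ∃ δ : ℝ, 0 < δ ∧ ∀ (b : ℕ → ℕ) (N : ℕ),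
  0 < N → 2 ≤ b 0 → (∀ m, m < N → b m < b (m + 1)) →
  ∑ m ∈ range N, 1 / ((b (m + 1) : ℝ) - b m) ≤ δ → ∃ g : ℤ → ℝ,
    (∀ t, g t ≠ 0 → (b 0 : ℤ) ≤ 2 * |t| ∧ |t| < 2 * (b N : ℤ)) ∧
    (∀ w : ℂ, ‖w‖ = 1 →
      ‖∑ t ∈ Ioo (-(2 * (b N : ℤ))) (2 * (b N : ℤ)), (g t : ℂ) * w ^ t‖ ≤ ε) ∧
    ∀ m, m < N → ∃ T : Finset ℤ, T ⊆ Ico (b m : ℤ) (b (m + 1)) ∧
      (∀ t ∈ T, g t ≠ 0) ∧ ∑ t ∈ T, |g t| = S

/-- the pipe lemma -/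
def T_PIP : Prop := ∀ d : ℕ → ℝ, (∀ n, 0 < d n) → Monotone d →
  Summable (fun n => 1 / d n ^ 2) → ∀ C : ℕ, 0 < C → ∀ S ε : ℝ, 0 < S → 0 < ε →
  ∃ X0 : ℕ, ∀ A B : ℕ, X0 ≤ A → 2 * A ≤ B →
    ∃ (N : ℕ) (b : ℕ → ℕ) (g : ℤ → ℝ) (T : ℕ → Finset ℤ), 0 < N ∧ b 0 = A ∧ b N = B ∧
      (∀ m, m < N → b m < b (m + 1) ∧ b (m + 1) ≤ 2 * b m) ∧
      (∀ m, m < N → (C : ℝ) * ((b (m + 1) : ℝ) - b m) ≤ d (b m)) ∧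
      (∀ m, m + 1 < N → (C : ℝ) * ((b (m + 2) : ℝ) - b m) ≤ d (b m)) ∧
      (∀ t, g t ≠ 0 → (b 0 : ℤ) ≤ 2 * |t| ∧ |t| < 2 * (b N : ℤ)) ∧
      (∀ w : ℂ, ‖w‖ = 1 →
        ‖∑ t ∈ Ioo (-(2 * (b N : ℤ))) (2 * (b N : ℤ)), (g t : ℂ) * w ^ t‖ ≤ ε) ∧
      ∀ m, m < N → T m ⊆ Ico (b m : ℤ) (b (m + 1)) ∧ (∀ t ∈ T m, g t ≠ 0) ∧
        ∑ t ∈ T m, |g t| = S

/-- the predecessors of the stations -/
def T_PRE : Prop :=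
  (∀ n i, Valid n i → i ≠ 1 →
    (∃ b, i = 2 ^ (b + 1) ∧ n < 2 ^ b ∧ ps n i = slot n (2 ^ b) ∧ Valid n (2 ^ b)) ∨
    (∃ b n', i = 2 ^ (b + 1) ∧ n = n' + 2 ^ b ∧ n' < 2 ^ b ∧
      ps n i = slot n' (2 ^ (b + 1) - 1) ∧ Valid n' (2 ^ (b + 1) - 1)) ∨
    (i ≠ 2 ^ lg i ∧ 2 ^ lg i < i ∧ lg (i - 1) = lg i ∧ ps n i = slot n (i - 1) ∧
      Valid n (i - 1))) ∧
  (∀ n i, Valid n i → i ≠ 1 → ps n i < slot n i ∧ Nat.size n ≤ ps n i ∧ 1 ≤ ps n i ∧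
    i ≤ 2 * ps n i ∧ n < i) ∧
  ∀ n i, Valid n i → Nat.size n ≤ slot n i ∧ lvl n i ≤ slot n i

/-- existence of the positions -/
def T_PEX : Prop := ∀ d : ℕ → ℝ, (∀ n, 0 < d n) → Monotone d →
  Summable (fun n => 1 / d n ^ 2) → Nonempty (Pos d)

/-! ## B. Arithmetic and combinatorics -/

/-- sizes -/
def T_GSZ : Prop := ∀ (d : ℕ → ℝ) (P : Pos d),
  (∀ r, 0 < P.X r) ∧ (∀ r, 1024 * P.X r ≤ P.X (r + 1)) ∧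
  (∀ r r', r < r' → 1024 * P.X r ≤ P.X r' ∧ 1024 * P.X r ≤ P.L r') ∧
  (∀ r, 4 ∣ P.X r ∧ r ≤ P.X r) ∧
  (∀ n i, Valid n i → (6 * Mo n * PP (lvl n i)) ∣ P.L (slot n i) ∧
    (6 * Mo n * PP (lvl n i)) ^ 2 ≤ P.L (slot n i)) ∧
  ∀ n i, Valid n i → i ≠ 1 → 40 * Mo n ≤ P.X (ps n i) ∧ 0 < P.N n i ∧
    1024 * P.X (ps n i) ≤ P.X (slot n i)

/-- the lines: residues -/
def T_LNS : Prop :=
  (∀ n z, ind (inh n) z = ∑ e ∈ range 6, ind (lr 1 n e) z) ∧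
  (∀ n z, ind (ing n) z = ∑ e ∈ range 6, ind (lr 3 n e) z) ∧
  (∀ c n e e' z, 0 ≤ e → e < 6 → 0 ≤ e' → e' < 6 → lr c n e z → lr c n e' z → e = e') ∧
  (∀ n e z, lr 1 n e z → inh n z) ∧ (∀ n e z, lr 3 n e z → ing n z) ∧
  (∀ n i t κ s, (κ = 0 ∨ κ = 1) → lr (lc i) n (2 * rho i + jj s) (pp n i t κ s) ∧
    (rho i = 0 ∨ rho i = 1) ∧ (lc i = 1 ∨ lc i = 3)) ∧
  (∀ n, 0 ≤ cc n ∧ ∀ c : ℤ, c = 1 ∨ c = 3 → 0 ≤ cc n + c * 4 ^ Nat.size n ∧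
    cc n + c * 4 ^ Nat.size n < Mo n) ∧
  ∀ n i t κ s t' κ' s', (κ = 0 ∨ κ = 1) → (κ' = 0 ∨ κ' = 1) →
    pp n i t κ s = pp n i t' κ' s' → t = t' ∧ κ = κ' ∧ s = s'

/-- zones -/
def T_ZON : Prop := ∀ (d : ℕ → ℝ) (P : Pos d),
  (∀ n i t κ s, Valid n i → i ≠ 1 → P.g n i t ≠ 0 → (κ = 0 ∨ κ = 1) →
    (P.X (ps n i) : ℤ) ≤ 4 * |pp n i t κ s| ∧ |pp n i t κ s| ≤ 3 * P.X (slot n i)) ∧
  (∀ n i z, P.Reg n i z → (P.X (slot n i) : ℤ) ≤ z ∧ z < 2 * P.X (slot n i)) ∧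
  ∀ n i m s z, Valid n i → i ≠ 1 → m < P.N n i → (z ∈ P.AB n i m s ∨ z ∈ P.EB n i m s) →
    12 * (Mo n : ℤ) * P.b n i m ≤ z ∧ z < 12 * (Mo n : ℤ) * P.b n i (m + 1)

/-- uniqueness of the addresses -/
def T_GUQ : Prop := ∀ (d : ℕ → ℝ) (P : Pos d),
  (∀ n i t κ s n' i' t' κ' s', Valid n i → i ≠ 1 → P.g n i t ≠ 0 → (κ = 0 ∨ κ = 1) →
    Valid n' i' → i' ≠ 1 → P.g n' i' t' ≠ 0 → (κ' = 0 ∨ κ' = 1) →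
    pp n i t κ s = pp n' i' t' κ' s' → n = n' ∧ i = i' ∧ t = t' ∧ κ = κ' ∧ s = s') ∧
  (∀ n i n' i' z, P.Reg n i z → P.Reg n' i' z → n = n' ∧ i = i') ∧
  (∀ n i z n' i' t κ s, P.Reg n i z → (κ = 0 ∨ κ = 1) → z ≠ pp n' i' t κ s) ∧
  ∀ n i m m' t, Valid n i → i ≠ 1 → m < P.N n i → m' < P.N n i → t ∈ P.T n i m →
    t ∈ P.T n i m' → m = m'

/-- numbers of points with given signs -/
def T_GCN : Prop := ∀ (d : ℕ → ℝ) (P : Pos d), ∀ n i, Valid n i →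
  0 < P.cnt n i ∧
  (∀ s : ℤ, s = 1 ∨ s = -1 → (P.FA n i s).card = P.cnt n i ∧
    (P.FS n i s).card = P.cnt n i ∧ (P.FD n i s).card = 2 * P.cnt n i) ∧
  (P.L (slot n i) : ℝ) / P.cnt n i = 6 * Mo n * PP (lvl n i) /
    (((pr (lvl n i) 0 - 1) / 2 * ((pr (lvl n i) 1 - 1) / 2) *
      ((pr (lvl n i) 2 - 1) / 2) : ℕ) : ℝ) ∧
  (P.L (slot n i) : ℝ) / P.cnt n i ≤ 162 * Mo n

/-- signs on the regions and the partition of a region -/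
def T_GSG : Prop := ∀ (d : ℕ → ℝ) (P : Pos d),
  (∀ n i z, z ∈ P.RS n i ↔ P.Reg n i z) ∧
  (∀ n i z, P.Reg n i z → (s1 n i z = 1 ∨ s1 n i z = -1) ∧ (s2 n i z = 1 ∨ s2 n i z = -1) ∧
    (s3 n i z = 1 ∨ s3 n i z = -1)) ∧
  (∀ n i, Disjoint (P.FA n i 1) (P.FA n i (-1)) ∧ Disjoint (P.FS n i 1) (P.FS n i (-1)) ∧
    Disjoint (P.FD n i 1) (P.FD n i (-1))) ∧
  (∀ n i z, P.Reg n i z → ∃ s : Bool, z ∈ P.FA n i (sg s) ∨ z ∈ P.FS n i (sg s) ∨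
    z ∈ P.FD n i (sg s)) ∧
  (∀ n i (g : ℤ → ℂ), Valid n i →
    ∑ z ∈ P.RS n i, g z = P.gA g n i + P.gS g n i + P.gD g n i) ∧
  ∀ n i s z, Valid n i → i ≠ 1 → z ∈ P.EM n i s → ∃ n' i', P.Reg n' i' z ∧ Valid n' i' ∧
    slot n' i' = ps n i ∧ (n' = n ∨ ∃ b, n = n' + 2 ^ b ∧ n' < 2 ^ b)

/-- the classes are disjoint, and so are their parts -/
def T_GDJ : Prop := ∀ (d : ℕ → ℝ) (P : Pos d),
  (∀ S c c' z, z ∈ P.cls S c → z ∈ P.cls S c' → c = c') ∧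
  (∀ n i m m' s s', Valid n i → i ≠ 1 → m < P.N n i → m' < P.N n i →
    Disjoint (P.AB n i m s) (P.EB n i m' s')) ∧
  (∀ n i m s u, Valid n i → i ≠ 1 → m < P.N n i → Disjoint (P.AB n i m s) (P.EM n i u)) ∧
  (∀ n i m s u, Valid n i → i ≠ 1 → m < P.N n i → Disjoint (P.FA n i u) (P.EB n i m s))

/-- the relation -/
def T_GRL : Prop := ∀ (d : ℕ → ℝ) (P : Pos d) (S : Set ℕ),
  (∀ m n, P.grel S m n ↔ m = n ∨ ∃ c, m ∈ P.cls S c ∧ n ∈ P.cls S c) ∧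
  (∀ n, {m | P.grel S n m}.Finite) ∧ ∀ f : L1, f ∈ Amax (P.grel S) ↔ P.Cst S f

/-- the size of the classes -/
def T_GDI : Prop := ∀ (d : ℕ → ℝ), Monotone d → ∀ (P : Pos d) (S : Set ℕ) (c : GC),
  ∀ z ∈ P.cls S c, ∀ z' ∈ P.cls S c,
    |(z.natAbs : ℝ) - z'.natAbs| ≤ d (min z.natAbs z'.natAbs)

/-- the relation depends locally on the tree -/
def T_GLO : Prop := ∀ (d : ℕ → ℝ) (P : Pos d) (m n : ℤ), ∃ F : Finset ℕ,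
  ∀ S S' : Set ℕ, (∀ k ∈ F, k ∈ S ↔ k ∈ S') → (P.grel S m n ↔ P.grel S' m n)

/-- continuity of the relation -/
def T_GCO : Prop := ∀ (d : ℕ → ℝ) (P : Pos d),
  Continuous (fun T : List ℕ → Bool => grelB P (ST T))

/-- elements of the classes lie in the lines of the nodes of the tree -/
def T_GIV : Prop := ∀ (d : ℕ → ℝ) (P : Pos d) (S : Set ℕ), IsTree S → ∀ c z, z ∈ P.cls S c →
  (∃ n i, n ∈ S ∧ P.Reg n i z) ∨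
    ∃ n i t κ s, n ∈ S ∧ Valid n i ∧ i ≠ 1 ∧ P.g n i t ≠ 0 ∧ (κ = 0 ∨ κ = 1) ∧
      z = pp n i t κ s

/-- the weights sum to zero on the classes -/
def T_GSM : Prop := ∀ (d : ℕ → ℝ) (P : Pos d) (S : Set ℕ), IsTree S → ∀ Λ : L1 →L[ℂ] ℂ,
  P.GVs S Λ → P.Kl S Λ

/-- the function of a branch is constant on the classes -/
def T_GPC : Prop := ∀ (d : ℕ → ℝ) (P : Pos d) (S : Set ℕ), IsTree S → ∀ v a, IsBr S v a →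
  ∀ f : L1, P.FVb v a f → P.Cst S f

/-! ## C. No synthesis for trees with a branch -/

/-- alternating sums of averages of `w^z` over short lacunary windows -/
def T_GAL : Prop :=
  ∀ X L : ℕ → ℕ, (∀ a, 0 < L a ∧ L a ≤ X a ∧ 16 * X a ≤ L (a + 1)) → ∀ (w : ℂ), ‖w‖ = 1 →
    ∀ K : ℕ, ‖∑ a ∈ range K, (-1) ^ a * avg (X a) (L a) (fun _ => 1) w‖ ≤ 8 ∧
    (w ≠ 1 → ‖∑ a ∈ range K, (-1) ^ a * avg (X a) (L a) (fun _ => 1) w‖ ≤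
      3 / (L 0 * ‖w - 1‖))

/-- the sum over the `D`-th roots of unity -/
def T_GRO : Prop :=
  ∀ D : ℕ, 0 < D → ∀ X L : ℕ → ℕ, (∀ a, 0 < L a ∧ L a ≤ X a ∧ 16 * X a ≤ L (a + 1)) →
    D ^ 2 ≤ L 0 → ∀ (w : ℂ), ‖w‖ = 1 → ∀ K : ℕ,
    ∑ k ∈ range D,
      ‖∑ a ∈ range K, (-1) ^ a * avg (X a) (L a) (fun _ => 1) (w * ze D ^ k)‖ ≤ 12

/-- alternating sums for periodic weights -/
def T_GFP : Prop :=
  ∀ (D : ℕ) (κ : ℝ) (h : ℤ → ℂ), 0 < D → Expn D κ h →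
    ∀ X L : ℕ → ℕ, (∀ a, 0 < L a ∧ L a ≤ X a ∧ 16 * X a ≤ L (a + 1)) → D ^ 2 ≤ L 0 →
    ∀ (w : ℂ), ‖w‖ = 1 → ∀ K : ℕ,
    ‖∑ a ∈ range K, (-1) ^ a * avg (X a) (L a) h w‖ ≤ 12 * κ

/-- one family of stations -/
def T_GFM : Prop := ∀ (d : ℕ → ℝ) (P : Pos d) (n k M : ℕ) (w : ℂ), ‖w‖ = 1 →
  ‖∑ a ∈ (range M).filter (fun a => n < 2 ^ a ∧ k < 2 ^ a ∧ slot n (2 ^ a + k) < M),
    ∑ z ∈ Ico (P.X (slot n (2 ^ a + k)) : ℤ)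
      (P.X (slot n (2 ^ a + k)) + P.L (slot n (2 ^ a + k))),
      P.wx n (2 ^ a + k) z * w ^ z‖ ≤ 15 * (3 / 4) ^ (n + k)

open Classical in
/-- the weights of the stations are uniformly bounded functionals -/
def T_GTT : Prop := ∀ (d : ℕ → ℝ) (P : Pos d) (S : Set ℕ) (M : ℕ) (w : ℂ), ‖w‖ = 1 →
  ‖∑ p ∈ stn S M, ∑ z ∈ P.RS p.1 p.2, (if p.2 = 1 ∧ s1 p.1 p.2 z = s2 p.1 p.2 z ∧
    s1 p.1 p.2 z = s3 p.1 p.2 z then 0 else P.wt p.1 p.2 z) * w ^ z‖ ≤ 250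

open Classical in
/-- the pairing over the stations -/
def T_GPR : Prop := ∀ (d : ℕ → ℝ) (P : Pos d) (S : Set ℕ), IsTree S → ∀ v a, IsBr S v a →
  ∀ F : ℤ → ℂ, (∀ n i z, P.Reg n i z → F z = pv v a n i z) → ∀ M, 2 ≤ M →
    ∑ p ∈ stn S M, ∑ z ∈ P.RS p.1 p.2, (if p.2 = 1 ∧ s1 p.1 p.2 z = s2 p.1 p.2 z ∧
      s1 p.1 p.2 z = s3 p.1 p.2 z then 0 else P.wt p.1 p.2 z) * F z = 2

/-- the functional of the stations -/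
def T_GST : Prop := ∀ (d : ℕ → ℝ) (P : Pos d) (S : Set ℕ), IsTree S → ∃ Λ : L1 →L[ℂ] ℂ,
  (∀ n i z, n ∈ S → P.Reg n i z → Λ (ex z) =
    if i = 1 ∧ s1 n i z = s2 n i z ∧ s1 n i z = s3 n i z then 0 else P.wt n i z) ∧
  (∀ z, (∀ n i, n ∈ S → ¬ P.Reg n i z) → Λ (ex z) = 0) ∧
  ∀ v a, IsBr S v a → ∀ f : L1, P.FVb v a f → Λ f = 2

/-- the functional of the pipes -/
def T_GPB : Prop := ∀ (d : ℕ → ℝ) (P : Pos d) (S : Set ℕ), ∃ Λ : L1 →L[ℂ] ℂ,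
  (∀ n i t κ s, n ∈ S → Valid n i → i ≠ 1 → P.g n i t ≠ 0 → (κ = 0 ∨ κ = 1) →
    Λ (ex (pp n i t κ s)) = (1 - 2 * (κ : ℂ)) * (sg s : ℂ) * (P.g n i t : ℂ)) ∧
  (∀ z, (∀ n i t κ s, n ∈ S → Valid n i → i ≠ 1 → P.g n i t ≠ 0 → (κ = 0 ∨ κ = 1) →
    z ≠ pp n i t κ s) → Λ (ex z) = 0) ∧
  ∀ v a, ∀ f : L1, P.FVb v a f → Λ f = 0

/-- the functional -/
def T_GFU : Prop := ∀ (d : ℕ → ℝ) (P : Pos d) (S : Set ℕ), IsTree S → ∃ Λ : L1 →L[ℂ] ℂ,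
  P.GVs S Λ ∧ ∀ v a, IsBr S v a → ∀ f : L1, P.FVb v a f → Λ f = 2

/-- the cut-offs -/
def T_GVL : Prop := ∀ (d : ℕ → ℝ) (P : Pos d),
  (∀ (r : ℕ) (z : ℤ), |z| ≤ 4 * P.X r → P.VG r z = 1) ∧
  (∀ (r : ℕ) (z : ℤ), (P.X (r + 1) : ℤ) ≤ 4 * |z| → P.VG r z = 0) ∧
  (∀ (r : ℕ) (z : ℤ), 0 ≤ P.VG r z ∧ P.VG r z ≤ 1) ∧
  (∀ r, (∃ K : L1, ‖K‖ ≤ 2 ∧ ∀ z, coeff K z = P.VG r z) ∧ MulB (fun z => (P.VG r z : ℂ)) 2) ∧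
  ∀ (f : L1) (ε : ℝ), 0 < ε → ∃ R, ∀ r, R ≤ r → ∀ g : L1, Act (fun z => (P.VG r z : ℂ)) f g →
    ‖g - f‖ < ε

/-- the multipliers of the lines -/
def T_GAM : Prop :=
  (∀ c n e, MulB (ind (lr c n e)) 1) ∧ (∀ n, MulB (ind (inh n)) 1) ∧
  (∀ n, MulB (ind (ing n)) 1) ∧ (∀ n a, MulB (ind (inK n a)) 1) ∧
  (∀ n, ∃ C, ∀ a, MulB (trg n a) C) ∧
  ∀ m j, MulB (fun z => (chi m j z : ℂ)) (Real.sqrt (pr m j))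

/-- the pieces as elements of `L¹` -/
def T_GPE : Prop := ∀ (d : ℕ → ℝ) (P : Pos d) (n i : ℕ), Valid n i →
  (∃ x : L1, ‖x‖ ≤ 20 * (3 / 4) ^ lvl n i ∧ ∀ z, coeff x z = P.pmg n i z) ∧
  ∃ x : L1, ‖x‖ ≤ 10 * (3 / 4) ^ lvl n i ∧ ∀ z, coeff x z = P.qmg n i z

/-- values of the pieces -/
def T_GPV : Prop := ∀ (d : ℕ → ℝ) (P : Pos d),
  (∀ n i n' i' z, Valid n i → P.Reg n' i' z → P.pmg n i z =
    if n' = n ∧ i' = i then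
      (1 / 2) ^ lvl n i * (((s1 n i z : ℂ) + s2 n i z) / 4 + (s3 n i z : ℂ) / 2)
    else if n' = n ∧ i = 2 ^ lg i ∧ i' = 2 ^ lg i' ∧ i' < i then
      (1 / 2) ^ lvl n i' * (((s1 n i' z : ℂ) + s2 n i' z) / 2)
    else 0) ∧
  (∀ n i n' i' z, Valid n i → P.Reg n' i' z → P.qmg n i z = 0) ∧
  (∀ n i n' i' t κ s, Valid n i → Valid n' i' → i' ≠ 1 → P.g n' i' t ≠ 0 → (κ = 0 ∨ κ = 1) →
    P.pmg n i (pp n' i' t κ s) = 0) ∧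
  ∀ n i n' i' t κ s, Valid n i → Valid n' i' → i' ≠ 1 → P.g n' i' t ≠ 0 → (κ = 0 ∨ κ = 1) →
    P.qmg n i (pp n' i' t κ s) =
      if n' = n ∧ i' = i then (1 / 2) ^ lvl n i * (sg s : ℂ)
      else if n' = n ∧ i = 2 ^ lg i ∧ i' = 2 ^ lg i' ∧ i' < i then
        (1 / 2) ^ lvl n i' * (sg s : ℂ)
      else 0

/-- the function attached to a branch -/
def T_GTH : Prop := ∀ (d : ℕ → ℝ) (P : Pos d) (S : Set ℕ) v a, IsBr S v a →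
  ∃ f : L1, P.FVb v a f

/-- no synthesis -/
def T_GNG : Prop := ∀ (d : ℕ → ℝ) (P : Pos d) (S : Set ℕ), IsTree S → Branch S →
  ¬ HasSynthesis (P.grel S)

/-! ## D. Synthesis for trees without a branch -/

/-- the sum over a pipe -/
def T_GPI : Prop := ∀ (d : ℕ → ℝ) (P : Pos d) (S : Set ℕ) (g : ℤ → ℂ), P.Rls S g →
  ∀ n i, n ∈ S → Valid n i → i ≠ 1 → P.gP g n i = -P.gA g n i - P.gE g n i

/-- the flow out of the stations -/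
def T_GFL : Prop := ∀ (d : ℕ → ℝ) (P : Pos d) (S : Set ℕ), IsTree S → ∀ g : ℤ → ℂ,
  P.Rls S g → ∀ n ∈ S,
  (∀ b, n < 2 ^ b → P.gE g n (2 ^ (b + 1)) = P.gS g n (2 ^ b)) ∧
  (∀ i, Valid n i → i ≠ 2 ^ lg i → P.gS g n i = 0 ∧ P.gE g n i = P.gD g n (i - 1)) ∧
  (∀ b, n < 2 ^ b → n + 2 ^ b ∈ S →
    P.gE g (n + 2 ^ b) (2 ^ (b + 1)) = P.gD g n (2 ^ (b + 1) - 1)) ∧
  (∀ b, n < 2 ^ b → n + 2 ^ b ∉ S → P.gD g n (2 ^ (b + 1) - 1) = 0) ∧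
  (n = 0 → P.gA g 0 1 = 0)

/-- telescoping over the stations and pipes of a node -/
def T_GTL : Prop := ∀ (d : ℕ → ℝ) (P : Pos d) (S : Set ℕ), IsTree S → ∀ g : ℤ → ℂ,
  P.Rls S g → ∀ n ∈ S, ∀ a, Nat.size n ≤ a →
    ∑ i ∈ Ico (2 ^ Nat.size n) (2 ^ (a + 1)),
      (∑ z ∈ P.RS n i, g z + if i = 1 then 0 else P.gP g n i) =
      P.gS g n (2 ^ a) - P.gI g n + ∑ b ∈ kids S n (a + 1), P.gE g (n + 2 ^ b) (2 ^ (b + 1))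

/-- the values of the cut-off of a node -/
def T_GMV : Prop := ∀ (d : ℕ → ℝ) (P : Pos d) (n a : ℕ), Nat.size n ≤ a →
  (∀ n' i z, P.Reg n' i z → P.MM n a z = if n' = n ∧ i < 2 ^ (a + 1) then 1 else 0) ∧
  (∀ n' i t κ s, Valid n' i → i ≠ 1 → P.g n' i t ≠ 0 → (κ = 0 ∨ κ = 1) →
    P.MM n a (pp n' i t κ s) = if n' = n ∧ i < 2 ^ (a + 1) then 1 else 0) ∧
  ∀ z : ℤ, (P.X (slot n (2 ^ (a + 1) - 1) + 1) : ℤ) ≤ |z| → P.MM n a z = 0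

/-- the sum over the lines of a node, cut off -/
def T_GSU : Prop := ∀ (d : ℕ → ℝ) (P : Pos d) (S : Set ℕ), IsTree S → ∀ g : ℤ → ℂ,
  (∀ z, (∀ c, z ∉ P.cls S c) → g z = 0) → ∀ n ∈ S, ∀ a, Nat.size n ≤ a →
  ∀ R : ℤ, R = P.X (slot n (2 ^ (a + 1) - 1) + 1) →
    ∑ z ∈ Ioo (-R) R, P.MM n a z * g z = ∑ i ∈ Ico (2 ^ Nat.size n) (2 ^ (a + 1)),
      (∑ z ∈ P.RS n i, g z + if i = 1 then 0 else P.gP g n i)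

/-- the selection of the stay points -/
def T_GSX : Prop := ∀ (d : ℕ → ℝ) (P : Pos d) (S : Set ℕ), IsTree S → ∀ g : ℤ → ℂ,
  (∀ z, (∀ c, z ∉ P.cls S c) → g z = 0) → ∀ n ∈ S, ∀ a, Nat.size n ≤ a →
  ∀ R : ℤ, R = P.X (slot n (2 ^ a) + 1) →
    ∑ z ∈ Ioo (-R) R,
      trg n a z * ((P.VG (slot n (2 ^ a)) z : ℂ) - P.VG (slot n (2 ^ a) - 1) z) * g z =
      P.gS g n (2 ^ a)

/-- the limit formula for a node -/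
def T_GND : Prop := ∀ (d : ℕ → ℝ) (P : Pos d) (S : Set ℕ), IsTree S →
  ∀ (Λ : L1 →L[ℂ] ℂ) (f : L1), P.Kl S Λ → P.Cst S f → ∀ n ∈ S, ∀ x y : L1,
  Act (ind (inh n)) f x → Act (ind (ing n)) f y →
    Tendsto (fun a => ∑ b ∈ kids S n a,
      P.gE (fun z => coeff f z * Λ (ex z)) (n + 2 ^ b) (2 ^ (b + 1))) atTop
      (𝓝 (Λ x + Λ y + P.gI (fun z => coeff f z * Λ (ex z)) n))

/-- a functional of a multiple without coefficients on the classes vanishes -/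
def T_GSV : Prop := ∀ (d : ℕ → ℝ) (P : Pos d) (S : Set ℕ) (Λ : L1 →L[ℂ] ℂ), P.Kl S Λ →
  ∀ x : L1, (∀ z c, z ∈ P.cls S c → coeff x z = 0) → Λ x = 0

/-- the limit formula for the progressions -/
def T_GKS : Prop := ∀ (d : ℕ → ℝ) (P : Pos d) (S : Set ℕ), IsTree S →
  ∀ (Λ : L1 →L[ℂ] ℂ) (f : L1), P.Kl S Λ → ∀ n ∈ S, ∀ x y u : L1,
  Act (ind (inh n)) f x → Act (ind (ing n)) f y → Act (ind (inK n (Nat.size n))) f u →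
  ∀ t : ℕ → L1, (∀ b, Act (ind (inK (n + 2 ^ b) (b + 1))) f (t b)) →
    Tendsto (fun a => ∑ b ∈ kids S n a, Λ (t b)) atTop (𝓝 (Λ u - Λ x - Λ y))

/-- without a branch, functionals which kill the classes kill the class-constant functions -/
def T_GLK : Prop := ∀ (d : ℕ → ℝ) (P : Pos d) (S : Set ℕ), IsTree S → ¬ Branch S →
  ∀ (Λ : L1 →L[ℂ] ℂ) (f : L1), P.Kl S Λ → P.Cst S f → Λ f = 0

/-- synthesis -/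
def T_GPO : Prop := ∀ (d : ℕ → ℝ) (P : Pos d) (S : Set ℕ), IsTree S → ¬ Branch S →
  HasSynthesis (P.grel S)

/-! ## E. The dichotomy -/

/-- the positive half -/
def T_WPO : Prop := ∀ w : ℕ → ℝ, (∀ n, 0 < w n) → Monotone w →
  ¬ Summable (fun n => 1 / w n) → ∀ r : Setoid ℤ, Cross r w → HasSynthesis r

/-- growth and crossing numbers -/
def T_WGR : Prop := ∀ (r : Setoid ℤ) (d : ℕ → ℝ), (∀ n, 0 < d n) → Monotone d → Growth r d →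
  Cross r (fun k => 2 * d k ^ 2)

/-- the negative half -/
def T_GDC : Prop := ∀ d : ℕ → ℝ, (∀ n, 0 < d n) → Monotone d →
  Summable (fun n => 1 / d n ^ 2) →
  ∃ G : (List ℕ → Bool) → (ℤ → ℤ → Bool), Continuous G ∧ ∀ T, ∃ r : Setoid ℤ, IsRel (G T) r ∧
    (∀ n, {m | r n m}.Finite) ∧ Growth r d ∧
      (T ∈ Pool.Agent.H72.IllF ↔ ¬ HasSynthesis r)

/-- the dichotomy -/
def T_GFIN : Prop := ∀ w : ℕ → ℝ, (∀ n, 0 < w n) → Monotone w →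
  (¬ Summable (fun n => 1 / w n) → ∀ r : Setoid ℤ, Cross r w → HasSynthesis r) ∧
  (Summable (fun n => 1 / w n) →
    (∀ A : Set (ℕ → ℕ), AnalyticSet A →
      ∃ F : (ℕ → ℕ) → (ℤ → ℤ → Bool), Continuous F ∧ ∀ x, ∃ r : Setoid ℤ, IsRel (F x) r ∧
        (∀ n, {m | r n m}.Finite) ∧ Growth r (fun k => Real.sqrt (w k / 2)) ∧ Cross r w ∧
        (x ∈ A ↔ ¬ HasSynthesis r)) ∧
    ¬ MeasurableSet {ρ : ℤ → ℤ → Bool | ∃ r : Setoid ℤ, IsRel ρ r ∧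
      (∀ n, {m | r n m}.Finite) ∧ Cross r w ∧ HasSynthesis r} ∧
    ¬ MeasurableSet {ρ : ℤ → ℤ → Bool | ∃ r : Setoid ℤ, IsRel ρ r ∧ Cross r w ∧
      HasSynthesis r})

end Pool.Agent.H93.GT
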