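import Pool.Agent.H93.GT.Targets

/-! Module ZON: zones. -/

set_option autoImplicit false

open Pool.Agent.H93.GT Pool.Agent.H87.Synth Pool.Agent.H85.SC Finset
open Pool.Agent.H93.ET (sg jj iE iA T_KKL T_CUT T_BRK T_SER T_CRI)

namespace Pool.Agent.H93.GT

theorem zon (h1 : T_GSZ) (h2 : T_LNS) : T_ZON := by
  intro d P
  obtain ⟨-, -, -, -, -, g6⟩ := h1 d P
  obtain ⟨-, -, -, -, -, l6, l7, -⟩ := h2
  have hj : ∀ s : Bool, jj s = 0 ∨ jj s = 1 := by
    intro s
    cases s <;> simp [jj]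
  have hlc : ∀ i, lc i = 1 ∨ lc i = 3 := by
    intro i
    unfold lc
    split_ifs <;> simp
  -- the position of a pipe point
  have hpos : ∀ n i t κ s, (κ = 0 ∨ κ = 1) →
      12 * (Mo n : ℤ) * t ≤ pp n i t κ s ∧ pp n i t κ s < 12 * (Mo n : ℤ) * t + 10 * Mo n := by
    intro n i t κ s hκ
    obtain ⟨-, hr, -⟩ := l6 n i t κ s hκ
    obtain ⟨a1, a2⟩ := (l7 n).2 (lc i) (hlc i)
    have hM : (0 : ℤ) < Mo n := by
      unfold Mo
      positivity
    have e : pp n i t κ s = 12 * (Mo n : ℤ) * t + Mo n * (6 * κ + 2 * rho i + jj s) +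
        (cc n + lc i * 4 ^ Nat.size n) := by
      unfold pp
      ring
    have hb : 0 ≤ 6 * κ + 2 * rho i + jj s ∧ 6 * κ + 2 * rho i + jj s ≤ 9 := by
      rcases hκ with h | h <;> rcases hr with h' | h' <;> rcases hj s with h'' | h'' <;>
        rw [h, h', h''] <;> norm_num
    have m1 : 0 ≤ (Mo n : ℤ) * (6 * κ + 2 * rho i + jj s) := mul_nonneg hM.le hb.1
    have m2 : (Mo n : ℤ) * (6 * κ + 2 * rho i + jj s) ≤ Mo n * 9 :=
      mul_le_mul_of_nonneg_left hb.2 hM.le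
    rw [e]
    constructor <;> linarith
  refine ⟨?_, ?_, ?_⟩
  · intro n i t κ s hV hi hg hκ
    obtain ⟨b1, b2⟩ := P.gsupp n i t hV hi hg
    obtain ⟨c1, c2, c3⟩ := g6 n i hV hi
    obtain ⟨p1, p2⟩ := hpos n i t κ s hκ
    have hM : (0 : ℤ) < Mo n := by
      unfold Mo
      positivity
    have e0 : 12 * (Mo n : ℤ) * P.b n i 0 = P.X (ps n i) := by exact_mod_cast P.hb0 n i hV hi
    have eN : 12 * (Mo n : ℤ) * P.b n i (P.N n i) = P.X (slot n i) := by
      exact_mod_cast P.hbN n i hV hi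
    have h40 : 40 * (Mo n : ℤ) ≤ P.X (ps n i) := by exact_mod_cast c1
    have h10 : 1024 * (P.X (ps n i) : ℤ) ≤ P.X (slot n i) := by exact_mod_cast c3
    have m1 : 6 * (Mo n : ℤ) * (P.b n i 0 : ℤ) ≤ 6 * (Mo n : ℤ) * (2 * |t|) :=
      mul_le_mul_of_nonneg_left b1 (by positivity)
    have m2 : 12 * (Mo n : ℤ) * |t| ≤ 12 * (Mo n : ℤ) * (2 * (P.b n i (P.N n i) : ℤ)) :=
      mul_le_mul_of_nonneg_left b2.le (by positivity)
    rcases le_or_gt 0 t with ht | ht
    · rw [abs_of_nonneg ht] at m1 m2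
      have h0 : 0 ≤ pp n i t κ s := by
        have : 0 ≤ 12 * (Mo n : ℤ) * t := by positivity
        linarith
      rw [abs_of_nonneg h0]
      constructor <;> linarith
    · rw [abs_of_neg ht] at m1 m2
      have h0 : pp n i t κ s < 0 := by linarith
      rw [abs_of_neg h0]
      constructor <;> linarith
  · intro n i z hz
    obtain ⟨-, hz1, hz2, -⟩ := hz
    have hL : (P.L (slot n i) : ℤ) ≤ P.X (slot n i) := by exact_mod_cast (P.hL (slot n i)).2
    exact ⟨hz1, by linarith⟩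
  · intro n i m s z hV hi hm hz
    have hM : (0 : ℤ) < Mo n := by
      unfold Mo
      positivity
    obtain ⟨t1, t2, -⟩ := P.hT n i m hV hi hm
    have key : ∀ t ∈ P.T n i m, ∀ κ, (κ = 0 ∨ κ = 1) →
        12 * (Mo n : ℤ) * P.b n i m ≤ pp n i t κ s ∧
          pp n i t κ s < 12 * (Mo n : ℤ) * P.b n i (m + 1) := by
      intro t ht κ hκ
      obtain ⟨p1, p2⟩ := hpos n i t κ s hκ
      have ht' := Finset.mem_Ico.1 (t1 ht)
      have m1 : 12 * (Mo n : ℤ) * P.b n i m ≤ 12 * (Mo n : ℤ) * t :=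
        mul_le_mul_of_nonneg_left ht'.1 (by positivity)
      have m2 : 12 * (Mo n : ℤ) * (t + 1) ≤ 12 * (Mo n : ℤ) * P.b n i (m + 1) :=
        mul_le_mul_of_nonneg_left (by linarith [ht'.2]) (by positivity)
      constructor <;> linarith
    rcases hz with hz | hz
    · unfold Pos.AB at hz
      obtain ⟨t, ht, rfl⟩ := Finset.mem_image.1 hz
      refine key t ht _ ?_
      unfold iA
      split_ifs <;> simp
    · unfold Pos.EB at hz
      obtain ⟨t, ht, rfl⟩ := Finset.mem_image.1 hz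
      refine key t ht _ ?_
      unfold iE
      split_ifs <;> simp

end Pool.Agent.H93.GT
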